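import Mathlib

set_option autoImplicit false

namespace Pool.Agent.Results.MP_352312_lc.LongBlock

open List

variable {α : Type*}

/-- words over `{x, y}` -/
inductive M (x y : List α) : List α → Prop
  | nil : M x y []
  | left (W : List α) : M x y W → M x y (x ++ W)
  | right (W : List α) : M x y W → M x y (y ++ W)

lemma M.symm {x y W : List α} (h : M x y W) : M y x W := by
  induction h with
  | nil => exact M.nil
  | left W _ ih => exact M.right W ih
  | right W _ ih => exact M.left W ih

lemma M.reduce {x y W : List α} (h : M x (x ++ y) W) : M x y W := by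
  induction h with
  | nil => exact M.nil
  | left W _ ih => exact M.left W ih
  | right W _ ih => rw [append_assoc]; exact M.left _ (M.right _ ih)

lemma M.app {x y W : List α} (h : M x y W) : M x y (W ++ x) := by
  induction h with
  | nil => have := M.left (x := x) (y := y) [] M.nil; simpa using this
  | left W _ ih => rw [append_assoc]; exact M.left _ ih
  | right W _ ih => rw [append_assoc]; exact M.right _ ih

/-- powers -/
def pw (x : List α) : ℕ → List α
  | 0 => []
  | k + 1 => x ++ pw x k

lemma pw_length (x : List α) (k : ℕ) : (pw x k).length = k * x.length := by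
  induction k with
  | zero => simp [pw]
  | succ k ih => simp [pw, ih]; ring

lemma pw_add (x : List α) (a b : ℕ) : pw x (a + b) = pw x a ++ pw x b := by
  induction a with
  | zero => simp [pw]
  | succ a ih => rw [show a + 1 + b = (a + b) + 1 by ring]; simp [pw, ih]

lemma pw_pw (x : List α) (a k : ℕ) : pw (pw x a) k = pw x (k * a) := by
  induction k with
  | zero => simp [pw]
  | succ k ih =>
    rw [pw, ih, ← pw_add]; congr 1; ring

lemma pw_one (x : List α) : pw x 1 = x := by simp [pw]

lemma M.pwLeft {x y W : List α} (h : M x y W) (k : ℕ) : M x y (pw x k ++ W) := by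
  induction k with
  | zero => simpa [pw] using h
  | succ k ih => rw [pw, append_assoc]; exact M.left _ ih

lemma M.ofPw {t y W : List α} {c : ℕ} (h : M (pw t c) y W) : M t y W := by
  induction h with
  | nil => exact M.nil
  | left W _ ih => exact M.pwLeft ih c
  | right W _ ih => exact M.right W ih

lemma M.isPw {r W : List α} {p q : ℕ} (h : M (pw r p) (pw r q) W) : ∃ N, W = pw r N := by
  induction h with
  | nil => exact ⟨0, rfl⟩
  | left W _ ih => obtain ⟨N, rfl⟩ := ih; exact ⟨p + N, by rw [pw_add]⟩
  | right W _ ih => obtain ⟨N, rfl⟩ := ih; exact ⟨q + N, by rw [pw_add]⟩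

/-- binary common prefix lemma -/
lemma commute_of_take : ∀ (N : ℕ) (x y : List α), x.length + y.length = N → x ≠ [] → y ≠ [] →
    ∀ U V, M x y U → M x y V → N - 1 ≤ (x ++ U).length → N - 1 ≤ (y ++ V).length →
    (x ++ U).take (N - 1) = (y ++ V).take (N - 1) → x ++ y = y ++ x := by
  intro N
  induction N using Nat.strong_induction_on with
  | _ N ih =>
    have key : ∀ (x y : List α), x.length ≤ y.length → x.length + y.length = N → x ≠ [] →
        y ≠ [] → ∀ U V, M x y U → M x y V → N - 1 ≤ (x ++ U).length →
        N - 1 ≤ (y ++ V).length → (x ++ U).take (N - 1) = (y ++ V).take (N - 1) →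
        x ++ y = y ++ x := by
      intro x y hxy hN hx hy U V hU hV hlU hlV hT
      have hx1 := length_pos_iff.2 hx
      have hy1 := length_pos_iff.2 hy
      have h1 : x = y.take x.length := by
        have := congrArg (take x.length) hT
        rw [take_take, take_take, min_eq_left (by omega), take_left,
          take_append_of_le_length hxy] at this
        exact this
      obtain ⟨y', rfl⟩ : ∃ y', y = x ++ y' := ⟨y.drop x.length, by
        conv_lhs => rw [← take_append_drop x.length y, ← h1]⟩
      by_cases hy' : y' = []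
      · subst hy'; simp
      have hy'1 := length_pos_iff.2 hy'
      simp only [length_append] at hN hlU hlV
      have hT2 : U.take (x.length + y'.length - 1) = (y' ++ V).take (x.length + y'.length - 1) := by
        have h2 : N - 1 = x.length + (x.length + y'.length - 1) := by omega
        rw [h2, append_assoc, take_length_add_append, take_length_add_append] at hT
        exact append_cancel_left hT
      have hres : x ++ y' = y' ++ x := by
        cases hU with
        | nil => simp only [length_nil] at hlU; omega
        | left U1 hU1 =>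
          refine ih (x.length + y'.length) (by omega) x y' rfl hx hy' U1 V hU1.reduce hV.reduce
            ?_ ?_ hT2
          · omega
          · simp only [length_append]; omega
        | right U1 hU1 =>
          rw [append_assoc] at hT2
          refine ih (x.length + y'.length) (by omega) x y' rfl hx hy' (y' ++ U1) V
            (M.right _ hU1.reduce) hV.reduce ?_ ?_ hT2
          · simp only [length_append] at hlU ⊢; omega
          · simp only [length_append]; omega
      calc x ++ (x ++ y') = x ++ (y' ++ x) := by rw [hres]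
        _ = (x ++ y') ++ x := by rw [append_assoc]
    intro x y hN hx hy U V hU hV hlU hlV hT
    rcases le_total x.length y.length with h | h
    · exact key x y h hN hx hy U V hU hV hlU hlV hT
    · exact (key y x h (by omega) hy hx V U hV.symm hU.symm hlV hlU hT.symm).symm

lemma root : ∀ (N : ℕ) (x y : List α), x.length + y.length = N → x ++ y = y ++ x →
    ∃ t a b, x = pw t a ∧ y = pw t b := by
  intro N
  induction N using Nat.strong_induction_on with
  | _ N ih =>
    have key : ∀ (x y : List α), x.length ≤ y.length → x.length + y.length = N →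
        x ++ y = y ++ x → ∃ t a b, x = pw t a ∧ y = pw t b := by
      intro x y hxy hN hc
      by_cases hx : x = []
      · subst hx; exact ⟨y, 0, 1, rfl, (pw_one y).symm⟩
      have hx1 := length_pos_iff.2 hx
      have h1 : x = y.take x.length := by
        have := congrArg (take x.length) hc
        rw [take_left, take_append_of_le_length hxy] at this
        exact this
      obtain ⟨y', rfl⟩ : ∃ y', y = x ++ y' := ⟨y.drop x.length, by
        conv_lhs => rw [← take_append_drop x.length y, ← h1]⟩
      rw [append_assoc] at hc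
      have hc' := append_cancel_left hc
      simp only [length_append] at hN
      obtain ⟨t, a, b, ha, hb⟩ := ih (x.length + y'.length) (by omega) x y' rfl hc'
      exact ⟨t, a, a + b, ha, by rw [pw_add, ← ha, ← hb]⟩
    intro x y hN hc
    rcases le_total x.length y.length with h | h
    · exact key x y h hN hc
    · obtain ⟨t, a, b, ha, hb⟩ := key y x h (by omega) hc.symm
      exact ⟨t, b, a, hb, ha⟩

lemma pw_cancel {r X : List α} (hr : r ≠ []) {i j : ℕ} (h : pw r i ++ X = pw r j) :
    ∃ k, X = pw r k := by
  have hr1 := length_pos_iff.2 hr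
  have hl := congrArg length h
  rw [length_append, pw_length, pw_length] at hl
  have hij : i ≤ j := by
    by_contra hcon
    have : j * r.length < i * r.length := Nat.mul_lt_mul_of_pos_right (by omega) hr1
    omega
  obtain ⟨k, rfl⟩ := Nat.exists_eq_add_of_le hij
  rw [pw_add] at h
  exact ⟨k, append_cancel_left h⟩

lemma cm_pw {r W : List α} (h : r ++ W = W ++ r) (k : ℕ) : r ++ pw W k = pw W k ++ r := by
  induction k with
  | zero => simp [pw]
  | succ k ih => rw [pw, ← append_assoc, h, append_assoc, ih, append_assoc]

lemma cm_app {r W W' : List α} (h : r ++ W = W ++ r) (h' : r ++ W' = W' ++ r) :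
    r ++ (W ++ W') = (W ++ W') ++ r := by
  rw [← append_assoc, h, append_assoc, h', append_assoc]

lemma cm_pw_left {r W : List α} (h : r ++ W = W ++ r) (k : ℕ) : pw r k ++ W = W ++ pw r k :=
  (cm_pw h.symm k).symm

lemma cm_eq {r X Y : List α} (hr : r ≠ []) (hX : r ++ X = X ++ r) (hY : r ++ Y = Y ++ r)
    (hl : X.length = Y.length) : X = Y := by
  have hr1 := length_pos_iff.2 hr
  have hb : X.length ≤ (pw r X.length).length := by
    rw [pw_length]; exact Nat.le_mul_of_pos_right _ hr1
  have h1 : X = (pw r X.length).take X.length := by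
    have := congrArg (take X.length) (cm_pw_left hX X.length)
    rw [take_append_of_le_length hb, take_left] at this
    exact this.symm
  have h2 : Y = (pw r X.length).take X.length := by
    have := congrArg (take X.length) (cm_pw_left hY X.length)
    rw [take_append_of_le_length hb, hl, take_left] at this
    rw [hl]; exact this.symm
  rw [h1, h2]

/-- the image of an index word -/
abbrev img (f : Fin 2 → List Bool) (l : List (Fin 2)) : List Bool := (l.map f).flatten

lemma img_replicate (f : Fin 2 → List Bool) (i : Fin 2) (k : ℕ) :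
    img f (replicate k i) = pw (f i) k := by
  induction k with
  | zero => simp [img, pw]
  | succ k ih => simp only [img, replicate_succ, map_cons, flatten_cons, pw] at ih ⊢; rw [ih]

lemma img_append (f : Fin 2 → List Bool) (l l' : List (Fin 2)) :
    img f (l ++ l') = img f l ++ img f l' := by simp [img]

lemma img_M (f : Fin 2 → List Bool) {i j : Fin 2} (hij : i ≠ j) (l : List (Fin 2)) :
    M (f i) (f j) (img f l) := by
  induction l with
  | nil => exact M.nil
  | cons a l ih =>
    have ha : a = i ∨ a = j := by omega
    rcases ha with rfl | rfl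
    · exact M.left _ ih
    · exact M.right _ ih

lemma split_block {i j : Fin 2} (hij : i ≠ j) (l : List (Fin 2)) :
    ∃ k l', l = replicate k i ++ l' ∧ (l' = [] ∨ ∃ l'', l' = j :: l'') := by
  induction l with
  | nil => exact ⟨0, [], rfl, Or.inl rfl⟩
  | cons a l ih =>
    have ha : a = i ∨ a = j := by omega
    rcases ha with rfl | rfl
    · obtain ⟨k, l', h1, h2⟩ := ih
      exact ⟨k + 1, l', by rw [h1, replicate_succ, cons_append], h2⟩
    · exact ⟨0, a :: l, by simp, Or.inr ⟨l, rfl⟩⟩

lemma img_le {u v : Fin 2 → List Bool} (h : ∀ i, (v i).length ≤ (u i).length)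
    (l : List (Fin 2)) : (img v l).length ≤ (img u l).length := by
  induction l with
  | nil => simp [img]
  | cons a l ih =>
    simp only [img, map_cons, flatten_cons, length_append] at ih ⊢
    have := h a
    omega

lemma main {n m : ℕ} {u v : Fin 2 → List Bool} {i j : Fin 2} (hij : i ≠ j)
    (hu : ∀ i, u i ≠ [] ∧ (u i).length ≤ n + 1) (hv : ∀ i, v i ≠ [] ∧ (v i).length ≤ n + 1)
    (hlt : (v i).length < (u i).length) (hm1 : n ≤ m * (v i).length)
    (hm2 : n ≤ m * ((u i).length - (v i).length)) {l : List (Fin 2)}
    (hl : replicate (m + 1) i <+: l) (hs : img u l = img v l) :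
    ∃ l : List (Fin 2), l ≠ [] ∧ l.length ≤ 2 * n ∧ img u l = img v l := by
  obtain ⟨l0, rfl⟩ := hl
  obtain ⟨k, l', rfl, hl'⟩ := split_block hij l0
  rw [← append_assoc, replicate_append_replicate] at hs
  obtain ⟨K, hK⟩ : ∃ K, K = m + 1 + k := ⟨_, rfl⟩
  rw [← hK, img_append, img_append, img_replicate, img_replicate] at hs
  have hA1 := length_pos_iff.2 (hu i).1
  have hC1 := length_pos_iff.2 (hv i).1
  have hD1 := length_pos_iff.2 (hv j).1
  have hB1 := length_pos_iff.2 (hu j).1
  have hKA : K * (v i).length < K * (u i).length := Nat.mul_lt_mul_of_pos_left hlt (by omega)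
  rcases hl' with rfl | ⟨l3, rfl⟩
  · exfalso
    have := congrArg length hs
    simp only [img, map_nil, flatten_nil, append_nil, pw_length] at this
    omega
  have hug : img u (j :: l3) = u j ++ img u l3 := by simp [img]
  have hvg : img v (j :: l3) = v j ++ img v l3 := by simp [img]
  rw [hug, hvg] at hs
  obtain ⟨A, hA⟩ : ∃ A, A = u i := ⟨_, rfl⟩
  obtain ⟨B, hB⟩ : ∃ B, B = u j := ⟨_, rfl⟩
  obtain ⟨C, hC⟩ : ∃ C, C = v i := ⟨_, rfl⟩
  obtain ⟨D, hD⟩ : ∃ D, D = v j := ⟨_, rfl⟩
  obtain ⟨G, hG⟩ : ∃ G, G = img u l3 := ⟨_, rfl⟩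
  obtain ⟨H, hH⟩ : ∃ H, H = img v l3 := ⟨_, rfl⟩
  have hGM : M A B G := by rw [hA, hB, hG]; exact img_M u hij l3
  have hHM : M C D H := by rw [hC, hD, hH]; exact img_M v hij l3
  have hAn : A.length ≤ n + 1 := by rw [hA]; exact (hu i).2
  have hDn : D.length ≤ n + 1 := by rw [hD]; exact (hv j).2
  have hA0 : A ≠ [] := by rw [hA]; exact (hu i).1
  have hB0 : B ≠ [] := by rw [hB]; exact (hu j).1
  have hC0 : C ≠ [] := by rw [hC]; exact (hv i).1
  have hD0 : D ≠ [] := by rw [hD]; exact (hv j).1
  have hBD : B.length < D.length := by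
    by_contra hcon
    push Not at hcon
    have hle : ∀ a, (v a).length ≤ (u a).length := by
      intro a
      have ha : a = i ∨ a = j := by omega
      rcases ha with rfl | rfl
      · exact hlt.le
      · rw [← hB, ← hD]; exact hcon
    have h1 := img_le hle l3
    have h2 := congrArg length hs
    simp only [length_append, pw_length] at h2
    rw [← hB, ← hD] at h2
    omega
  rw [← hA, ← hB, ← hC, ← hD, ← hG, ← hH] at hs
  rw [← hA, ← hC] at hlt hKA
  rw [← hC] at hm1
  rw [← hA, ← hC] at hm2
  have hKm : m + 1 ≤ K := by omega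
  have hKC : n + C.length ≤ K * C.length := by
    calc n + C.length ≤ m * C.length + C.length := by omega
      _ = (m + 1) * C.length := by ring
      _ ≤ K * C.length := Nat.mul_le_mul_right _ hKm
  have hKd : n + (A.length - C.length) ≤ K * (A.length - C.length) := by
    calc n + (A.length - C.length) ≤ m * (A.length - C.length) + (A.length - C.length) := by omega
      _ = (m + 1) * (A.length - C.length) := by ring
      _ ≤ K * (A.length - C.length) := Nat.mul_le_mul_right _ hKm
  obtain ⟨K', rfl⟩ : ∃ K', K = K' + 1 := ⟨K - 1, by omega⟩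
  -- step 1
  have hAC : A ++ C = C ++ A := by
    refine commute_of_take (A.length + C.length) A C rfl hA0 hC0 (pw A K') (pw C K') ?_ ?_ ?_ ?_ ?_
    · simpa using M.pwLeft (x := A) (y := C) M.nil K'
    · have := M.pwLeft (x := C) (y := A) M.nil K'
      simpa using this.symm
    · show _ ≤ (pw A (K' + 1)).length
      rw [pw_length]; omega
    · show _ ≤ (pw C (K' + 1)).length
      rw [pw_length]; omega
    · show (pw A (K' + 1)).take _ = (pw C (K' + 1)).take _
      have h := congrArg (take (A.length + C.length - 1)) hs
      rw [take_append_of_le_length (by rw [pw_length]; omega),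
        take_append_of_le_length (by rw [pw_length]; omega)] at h
      exact h
  obtain ⟨t, a, c, rfl, rfl⟩ := root _ A C rfl hAC
  have ht0 : t ≠ [] := by
    rintro rfl
    apply hA0
    have := pw_length ([] : List Bool) a
    simp only [length_nil, mul_zero] at this
    exact length_eq_zero_iff.1 this
  have ht1 := length_pos_iff.2 ht0
  have hca : c < a := by
    rw [pw_length, pw_length] at hlt
    exact Nat.lt_of_mul_lt_mul_right hlt
  obtain ⟨d, rfl⟩ := Nat.exists_eq_add_of_lt hca
  rw [pw_pw, pw_pw, show (K' + 1) * (c + d + 1) = (K' + 1) * c + (K' + 1) * (d + 1) by ring,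
    pw_add, append_assoc] at hs
  have hs2 := append_cancel_left hs
  have hed : (pw t (c + d + 1)).length - (pw t c).length = (d + 1) * t.length := by
    rw [pw_length, pw_length, show (c + d + 1) * t.length = c * t.length + (d + 1) * t.length by ring]
    omega
  rw [hed] at hKd
  have hdt : t.length ≤ (d + 1) * t.length := Nat.le_mul_of_pos_left _ (by omega)
  have hel : n + t.length ≤ (pw t ((K' + 1) * (d + 1))).length := by
    rw [pw_length, mul_assoc]; omega
  -- step 3
  have htD : t ++ D = D ++ t := by
    obtain ⟨e, he⟩ : ∃ e, (K' + 1) * (d + 1) = e + 1 := ⟨(K' + 1) * (d + 1) - 1, by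
      have : 0 < (K' + 1) * (d + 1) := by positivity
      omega⟩
    rw [he] at hs2 hel
    refine commute_of_take (t.length + D.length) t D rfl ht0 hD0 (pw t e) H ?_ ?_ ?_ ?_ ?_
    · simpa using M.pwLeft (x := t) (y := D) M.nil e
    · exact M.ofPw hHM
    · show _ ≤ (pw t (e + 1)).length
      omega
    · have := congrArg length hs2
      rw [length_append] at this
      omega
    · show (pw t (e + 1)).take _ = _
      have h := congrArg (take (t.length + D.length - 1)) hs2
      rw [take_append_of_le_length (by omega)] at h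
      exact h
  obtain ⟨r, p, q, rfl, rfl⟩ := root _ t D rfl htD
  have hr0 : r ≠ [] := by
    rintro rfl
    apply ht0
    have := pw_length ([] : List Bool) p
    simp only [length_nil, mul_zero] at this
    exact length_eq_zero_iff.1 this
  -- step 4
  obtain ⟨N, hN⟩ := M.isPw (M.ofPw hHM)
  rw [hN, ← pw_add, pw_pw] at hs2
  obtain ⟨N2, hN2⟩ := pw_cancel hr0 hs2
  have hrB : r ++ B = B ++ r := by
    refine commute_of_take (r.length + B.length) r B rfl hr0 hB0 (pw r N2) (G ++ r) ?_ ?_ ?_ ?_ ?_
    · simpa using M.pwLeft (x := r) (y := B) M.nil N2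
    · exact (M.ofPw (M.ofPw hGM)).app
    · have := congrArg length hN2
      simp only [length_append] at this ⊢
      omega
    · simp only [length_append]; omega
    · have : r ++ pw r N2 = B ++ (G ++ r) := by
        rw [← append_assoc, hN2]
        exact (cm_pw_left (r := r) (W := r) rfl N2).symm
      rw [this]
  have hcr : ∀ k, r ++ pw r k = pw r k ++ r := fun k => cm_pw (r := r) (W := r) rfl k
  have hrA : r ++ pw (pw r p) (c + d + 1) = pw (pw r p) (c + d + 1) ++ r := by
    rw [pw_pw]; exact hcr _
  have hrC : r ++ pw (pw r p) c = pw (pw r p) c ++ r := by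
    rw [pw_pw]; exact hcr _
  refine ⟨replicate ((v j).length - (u j).length) i ++ replicate ((u i).length - (v i).length) j,
    ?_, ?_, ?_⟩
  · have : 0 < (u i).length - (v i).length := by rw [← hA, ← hC]; omega
    intro hcon
    have h2 := congrArg length hcon
    simp only [length_append, length_replicate, length_nil] at h2
    omega
  · have h1 := (hu i).2
    have h2 := (hv j).2
    simp only [length_append, length_replicate]
    omega
  · rw [img_append, img_append, img_replicate, img_replicate, img_replicate, img_replicate]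
    rw [← hA, ← hB, ← hC, ← hD]
    refine cm_eq hr0 (cm_app (cm_pw hrA _) (cm_pw hrB _)) (cm_app (cm_pw hrC _) (cm_pw (hcr _) _)) ?_
    simp only [length_append, pw_length]
    rw [pw_length] at hBD
    simp only [pw_length] at hlt
    obtain ⟨x, hx⟩ := Nat.exists_eq_add_of_lt hBD
    obtain ⟨y, hy⟩ := Nat.exists_eq_add_of_lt hlt
    rw [hx, hy]
    have e1 : B.length + x + 1 - B.length = x + 1 := by omega
    have e2 : c * (p * r.length) + y + 1 - c * (p * r.length) = y + 1 := by omega
    rw [e1, e2]
    ring

/-- first letters of equal length -/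
lemma first_eq {u v : Fin 2 → List Bool} {l : List (Fin 2)} {i : Fin 2}
    (h : (u i).length = (v i).length) (hs : img u (i :: l) = img v (i :: l)) : u i = v i := by
  simp only [img, map_cons, flatten_cons] at hs
  exact (append_inj hs h).1

lemma prefixCase {n m : ℕ} {u v : Fin 2 → List Bool} {i : Fin 2} (hn : 1 ≤ n)
    (hu : ∀ i, u i ≠ [] ∧ (u i).length ≤ n + 1) (hv : ∀ i, v i ≠ [] ∧ (v i).length ≤ n + 1)
    (hm1 : n ≤ m * (u i).length) (hm2 : n ≤ m * (v i).length)
    (hm3 : n ≤ m * ((u i).length - (v i).length) ∨ n ≤ m * ((v i).length - (u i).length))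
    {l : List (Fin 2)} (hl : replicate (m + 1) i <+: l) (hs : img u l = img v l) :
    ∃ l : List (Fin 2), l ≠ [] ∧ l.length ≤ 2 * n ∧ img u l = img v l := by
  obtain ⟨j, hij⟩ : ∃ j : Fin 2, i ≠ j := ⟨1 - i, by omega⟩
  rcases lt_trichotomy (v i).length (u i).length with h | h | h
  · refine main hij hu hv h hm2 ?_ hl hs
    rcases hm3 with h3 | h3
    · exact h3
    · rw [Nat.sub_eq_zero_of_le h.le] at h3; omega
  · exfalso
    rw [h] at hm3
    simp only [Nat.sub_self, mul_zero] at hm3
    omega
  · obtain ⟨l', h1, h2, h3⟩ := main hij hv hu h hm1 (by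
      rcases hm3 with h3 | h3
      · rw [Nat.sub_eq_zero_of_le h.le] at h3; omega
      · exact h3) hl hs.symm
    exact ⟨l', h1, h2, h3.symm⟩

lemma img_reverse (f : Fin 2 → List Bool) (l : List (Fin 2)) :
    img (fun i => (f i).reverse) l.reverse = (img f l).reverse := by
  induction l with
  | nil => simp [img]
  | cons a l ih =>
    simp only [img, reverse_cons, map_append, map_cons, map_nil, flatten_append, flatten_cons,
      flatten_nil, append_nil, reverse_append] at ih ⊢
    rw [ih]

lemma img_length (f : Fin 2 → List Bool) (l : List (Fin 2)) :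
    (img f l).length = l.count 0 * (f 0).length + l.count 1 * (f 1).length := by
  induction l with
  | nil => simp [img]
  | cons a l ih =>
    have ha : a = 0 ∨ a = 1 := by omega
    simp only [img, map_cons, flatten_cons, length_append] at ih ⊢
    rw [ih]
    rcases ha with rfl | rfl
    · simp; ring
    · simp; ring

lemma count_length (l : List (Fin 2)) : l.length = l.count 0 + l.count 1 := by
  induction l with
  | nil => simp
  | cons a l ih =>
    have ha : a = 0 ∨ a = 1 := by omega
    rcases ha with rfl | rfl
    · simp [ih]; ring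
    · simp [ih]; ring

/-- difference of the two lengths of a pair -/
abbrev dif (u v : Fin 2 → List Bool) (i : Fin 2) : ℕ :=
  ((u i).length - (v i).length) + ((v i).length - (u i).length)

lemma arith {n c0 c1 a0 b0 a1 b1 : ℕ} (h : c0 * a0 + c1 * a1 = c0 * b0 + c1 * b1) (hlt : b0 < a0)
    (hc0 : 0 < c0)
    (hcop : Nat.gcd c0 c1 ≤ Nat.gcd ((a0 - b0) + (b0 - a0)) ((a1 - b1) + (b1 - a1)))
    (ha0 : a0 ≤ n + 1) (hb0 : 0 < b0) (hb1 : b1 ≤ n + 1) (ha1 : 0 < a1) :
    c0 + c1 ≤ 2 * n := by
  obtain ⟨x, rfl⟩ := Nat.exists_eq_add_of_lt hlt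
  have hlt2 : a1 < b1 := by
    by_contra hcon
    push Not at hcon
    have h1 := Nat.mul_le_mul_left c1 hcon
    have h2 : c0 * (b0 + x + 1) = c0 * b0 + c0 * (x + 1) := by ring
    have h3 : 0 < c0 * (x + 1) := by positivity
    omega
  obtain ⟨y, rfl⟩ := Nat.exists_eq_add_of_lt hlt2
  have he : c0 * (x + 1) = c1 * (y + 1) := by
    have h2 : c0 * (b0 + x + 1) = c0 * b0 + c0 * (x + 1) := by ring
    have h3 : c1 * (a1 + y + 1) = c1 * a1 + c1 * (y + 1) := by ring
    omega
  have e1 : (b0 + x + 1 - b0) + (b0 - (b0 + x + 1)) = x + 1 := by omega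
  have e2 : (a1 - (a1 + y + 1)) + (a1 + y + 1 - a1) = y + 1 := by omega
  rw [e1, e2] at hcop
  have hg : 0 < Nat.gcd c0 c1 := Nat.gcd_pos_of_pos_left _ hc0
  obtain ⟨g, p, q, hg0, hpq, hp, hq⟩ := Nat.exists_coprime' hg
  have hgg : Nat.gcd c0 c1 = g := by
    rw [hp, hq, Nat.gcd_mul_right, hpq, one_mul]
  have he2 : p * (x + 1) = q * (y + 1) := by
    have : g * (p * (x + 1)) = g * (q * (y + 1)) := by
      calc g * (p * (x + 1)) = (p * g) * (x + 1) := by ring
        _ = (q * g) * (y + 1) := by rw [← hp, ← hq, he]
        _ = g * (q * (y + 1)) := by ring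
    exact Nat.eq_of_mul_eq_mul_left hg0 this
  obtain ⟨z, hz⟩ : p ∣ y + 1 := Nat.Coprime.dvd_of_dvd_mul_left hpq (he2 ▸ Dvd.intro _ rfl)
  have hp0 : 0 < p := by
    rcases Nat.eq_zero_or_pos p with h0 | h0
    · subst h0; omega
    · exact h0
  have hx : x + 1 = q * z := by
    rw [hz] at he2
    have : p * (x + 1) = p * (q * z) := by rw [he2]; ring
    exact Nat.eq_of_mul_eq_mul_left hp0 this
  rw [hgg, hx, hz, Nat.gcd_mul_right, Nat.gcd_comm, hpq, one_mul] at hcop
  calc c0 + c1 = (p + q) * g := by rw [hp, hq]; ring
    _ ≤ (p + q) * z := Nat.mul_le_mul_left _ hcop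
    _ = (y + 1) + (x + 1) := by rw [hz, hx]; ring
    _ ≤ 2 * n := by omega

lemma gcdCase {n : ℕ} {u v : Fin 2 → List Bool} (hn : 1 ≤ n)
    (hu : ∀ i, u i ≠ [] ∧ (u i).length ≤ n + 1) (hv : ∀ i, v i ≠ [] ∧ (v i).length ≤ n + 1)
    {l : List (Fin 2)} (hl0 : l ≠ []) (hs : img u l = img v l)
    (hc : Nat.gcd (l.count 0) (l.count 1) ≤ Nat.gcd (dif u v 0) (dif u v 1)) :
    ∃ l : List (Fin 2), l ≠ [] ∧ l.length ≤ 2 * n ∧ img u l = img v l := by
  have single : ∀ i, u i = v i →
      ∃ l : List (Fin 2), l ≠ [] ∧ l.length ≤ 2 * n ∧ img u l = img v l := by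
    intro i hi
    exact ⟨[i], by simp, by simp; omega, by simp [img, hi]⟩
  have hlen := congrArg length hs
  rw [img_length, img_length] at hlen
  have p1 := length_pos_iff.2 (hu 0).1
  have p2 := length_pos_iff.2 (hu 1).1
  have p3 := length_pos_iff.2 (hv 0).1
  have p4 := length_pos_iff.2 (hv 1).1
  have q1 := (hu 0).2
  have q2 := (hu 1).2
  have q3 := (hv 0).2
  have q4 := (hv 1).2
  obtain ⟨i, l1, hl1⟩ : ∃ i l1, l = i :: l1 := by
    cases l with
    | nil => exact absurd rfl hl0
    | cons a l => exact ⟨a, l, rfl⟩
  have hcl := count_length l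
  by_cases hi : (u i).length = (v i).length
  · subst hl1
    exact single i (first_eq hi hs)
  have hcount : ∀ x : Fin 2, x = i → 0 < l.count x := by
    rintro x rfl
    rw [hl1]; simp
  refine ⟨l, hl0, ?_, hs⟩
  rw [hcl]
  have hi01 : i = 0 ∨ i = 1 := by omega
  unfold dif at hc
  rcases hi01 with h0 | h0
  · have hc0 := hcount 0 h0.symm
    rw [h0] at hi
    rcases lt_or_gt_of_ne hi with h | h
    · refine arith hlen.symm h hc0 ?_ q3 p1 q2 p4
      rwa [add_comm ((v 0).length - _), add_comm ((v 1).length - _)]
    · exact arith hlen h hc0 hc q1 p3 q4 p2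
  · have hc0 := hcount 1 h0.symm
    rw [h0] at hi
    rw [add_comm]
    rw [Nat.gcd_comm, Nat.gcd_comm ((u 0).length - _ + _)] at hc
    rcases lt_or_gt_of_ne hi with h | h
    · refine arith (by omega) h hc0 ?_ q4 p2 q1 p3
      rwa [add_comm ((v 0).length - _), add_comm ((v 1).length - _)]
    · exact arith (by omega) h hc0 hc q2 p4 q3 p1

/-- Two-pair instances of the Post correspondence problem with nonempty binary words of length at
most `n + 1`: if some solution `l` begins or ends with `m + 1` equal indices `i`, where
`m * min (|u i|, |v i|, ||u i| - |v i||) ≥ n` (for instance `m = n`), or if the greatest common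
divisor of the numbers of occurrences of the two indices in some solution is at most
`gcd (||u 0| - |v 0||, ||u 1| - |v 1||)`, then there is a solution of length at most `2 n`. -/
theorem result : ∀ (n : ℕ) (u v : Fin 2 → List Bool), 1 ≤ n →
    (∀ i, u i ≠ [] ∧ (u i).length ≤ n + 1) → (∀ i, v i ≠ [] ∧ (v i).length ≤ n + 1) →
    (∃ l : List (Fin 2), l ≠ [] ∧ (l.map u).flatten = (l.map v).flatten ∧
      ((∃ (i : Fin 2) (m : ℕ), (replicate (m + 1) i <+: l ∨ replicate (m + 1) i <:+ l) ∧
          ((u i).length = (v i).length ∨ n ≤ m ∨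
            (n ≤ m * (u i).length ∧ n ≤ m * (v i).length ∧
              (n ≤ m * ((u i).length - (v i).length) ∨
                n ≤ m * ((v i).length - (u i).length))))) ∨
        Nat.gcd (l.count 0) (l.count 1) ≤ Nat.gcd (dif u v 0) (dif u v 1))) →
    ∃ l : List (Fin 2), l ≠ [] ∧ l.length ≤ 2 * n ∧ (l.map u).flatten = (l.map v).flatten := by
  intro n u v hn hu hv ⟨l, hl0, hs, hcase⟩
  -- the prefix version with the three alternatives
  have pre : ∀ (u v : Fin 2 → List Bool), (∀ i, u i ≠ [] ∧ (u i).length ≤ n + 1) →
      (∀ i, v i ≠ [] ∧ (v i).length ≤ n + 1) → ∀ (l : List (Fin 2)), img u l = img v l →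
      ∀ (i : Fin 2) (m : ℕ), replicate (m + 1) i <+: l →
      ((u i).length = (v i).length ∨ n ≤ m ∨
            (n ≤ m * (u i).length ∧ n ≤ m * (v i).length ∧
              (n ≤ m * ((u i).length - (v i).length) ∨
                n ≤ m * ((v i).length - (u i).length)))) →
      ∃ l : List (Fin 2), l ≠ [] ∧ l.length ≤ 2 * n ∧ img u l = img v l := by
    intro u v hu hv l hs i m hp h
    by_cases heq : (u i).length = (v i).length
    · obtain ⟨l', rfl⟩ := hp
      rw [replicate_succ, cons_append] at hs
      have := first_eq heq hs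
      exact ⟨[i], by simp, by simp; omega, by simp [img, this]⟩
    have p1 := length_pos_iff.2 (hu i).1
    have p2 := length_pos_iff.2 (hv i).1
    rcases h with h | h | h
    · exact absurd h heq
    · refine prefixCase hn hu hv (h.trans (Nat.le_mul_of_pos_right _ p1))
        (h.trans (Nat.le_mul_of_pos_right _ p2)) ?_ hp hs
      rcases lt_or_gt_of_ne heq with h1 | h1
      · exact Or.inr (h.trans (Nat.le_mul_of_pos_right _ (by omega)))
      · exact Or.inl (h.trans (Nat.le_mul_of_pos_right _ (by omega)))
    · exact prefixCase hn hu hv h.1 h.2.1 h.2.2 hp hs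
  rcases hcase with ⟨i, m, hp | hp, h⟩ | hc
  · exact pre u v hu hv l hs i m hp h
  · have hs' : img (fun i => (u i).reverse) l.reverse = img (fun i => (v i).reverse) l.reverse := by
      rw [img_reverse, img_reverse]; exact congrArg reverse hs
    have hp' : replicate (m + 1) i <+: l.reverse := by
      rw [← reverse_suffix, reverse_reverse, reverse_replicate]; exact hp
    obtain ⟨l', h1, h2, h3⟩ := pre (fun i => (u i).reverse) (fun i => (v i).reverse)
      (fun i => ⟨by simpa using (hu i).1, by simpa using (hu i).2⟩)
      (fun i => ⟨by simpa using (hv i).1, by simpa using (hv i).2⟩) l.reverse hs' i m hp'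
      (by simpa using h)
    refine ⟨l'.reverse, by simpa using h1, by simpa using h2, ?_⟩
    have h4 := congrArg reverse h3
    rw [← img_reverse, ← img_reverse] at h4
    simpa [img] using h4
  · exact gcdCase hn hu hv hl0 hs hc

end Pool.Agent.Results.MP_352312_lc.LongBlock
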