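import Mathlib

set_option autoImplicit false

namespace Pool.Agent.Results.MP_352312_lc.PeriodicSide

open List

variable {α : Type*}

/-- words over `{x, y}` -/
inductive M (x y : List α) : List α → Prop
  | nil : M x y []
  | left (W : List α) : M x y W → M x y (x ++ W)
  | right (W : List α) : M x y W → M x y (y ++ W)

lemma M.symm {x y W : List α} (h : M x y W) : M y x W := by
  induction h with
  | nil => exact M.nil
  | left W _ ih => exact M.right W ih
  | right W _ ih => exact M.left W ih

lemma M.reduce {x y W : List α} (h : M x (x ++ y) W) : M x y W := by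
  induction h with
  | nil => exact M.nil
  | left W _ ih => exact M.left W ih
  | right W _ ih => rw [append_assoc]; exact M.left _ (M.right _ ih)

lemma M.app {x y W : List α} (h : M x y W) : M x y (W ++ x) := by
  induction h with
  | nil => have := M.left (x := x) (y := y) [] M.nil; simpa using this
  | left W _ ih => rw [append_assoc]; exact M.left _ ih
  | right W _ ih => rw [append_assoc]; exact M.right _ ih

/-- powers -/
def pw (x : List α) : ℕ → List α
  | 0 => []
  | k + 1 => x ++ pw x k

lemma pw_length (x : List α) (k : ℕ) : (pw x k).length = k * x.length := by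
  induction k with
  | zero => simp [pw]
  | succ k ih => simp [pw, ih]; ring

lemma pw_add (x : List α) (a b : ℕ) : pw x (a + b) = pw x a ++ pw x b := by
  induction a with
  | zero => simp [pw]
  | succ a ih => rw [show a + 1 + b = (a + b) + 1 by ring]; simp [pw, ih]

lemma pw_pw (x : List α) (a k : ℕ) : pw (pw x a) k = pw x (k * a) := by
  induction k with
  | zero => simp [pw]
  | succ k ih =>
    rw [pw, ih, ← pw_add]; congr 1; ring

lemma pw_one (x : List α) : pw x 1 = x := by simp [pw]

lemma M.pwLeft {x y W : List α} (h : M x y W) (k : ℕ) : M x y (pw x k ++ W) := by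
  induction k with
  | zero => simpa [pw] using h
  | succ k ih => rw [pw, append_assoc]; exact M.left _ ih

lemma M.ofPw {t y W : List α} {c : ℕ} (h : M (pw t c) y W) : M t y W := by
  induction h with
  | nil => exact M.nil
  | left W _ ih => exact M.pwLeft ih c
  | right W _ ih => exact M.right W ih

lemma M.isPw {r W : List α} {p q : ℕ} (h : M (pw r p) (pw r q) W) : ∃ N, W = pw r N := by
  induction h with
  | nil => exact ⟨0, rfl⟩
  | left W _ ih => obtain ⟨N, rfl⟩ := ih; exact ⟨p + N, by rw [pw_add]⟩
  | right W _ ih => obtain ⟨N, rfl⟩ := ih; exact ⟨q + N, by rw [pw_add]⟩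

/-- binary common prefix lemma -/
lemma commute_of_take : ∀ (N : ℕ) (x y : List α), x.length + y.length = N → x ≠ [] → y ≠ [] →
    ∀ U V, M x y U → M x y V → N - 1 ≤ (x ++ U).length → N - 1 ≤ (y ++ V).length →
    (x ++ U).take (N - 1) = (y ++ V).take (N - 1) → x ++ y = y ++ x := by
  intro N
  induction N using Nat.strong_induction_on with
  | _ N ih =>
    have key : ∀ (x y : List α), x.length ≤ y.length → x.length + y.length = N → x ≠ [] →
        y ≠ [] → ∀ U V, M x y U → M x y V → N - 1 ≤ (x ++ U).length →
        N - 1 ≤ (y ++ V).length → (x ++ U).take (N - 1) = (y ++ V).take (N - 1) →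
        x ++ y = y ++ x := by
      intro x y hxy hN hx hy U V hU hV hlU hlV hT
      have hx1 := length_pos_iff.2 hx
      have hy1 := length_pos_iff.2 hy
      have h1 : x = y.take x.length := by
        have := congrArg (take x.length) hT
        rw [take_take, take_take, min_eq_left (by omega), take_left,
          take_append_of_le_length hxy] at this
        exact this
      obtain ⟨y', rfl⟩ : ∃ y', y = x ++ y' := ⟨y.drop x.length, by
        conv_lhs => rw [← take_append_drop x.length y, ← h1]⟩
      by_cases hy' : y' = []
      · subst hy'; simp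
      have hy'1 := length_pos_iff.2 hy'
      simp only [length_append] at hN hlU hlV
      have hT2 : U.take (x.length + y'.length - 1) = (y' ++ V).take (x.length + y'.length - 1) := by
        have h2 : N - 1 = x.length + (x.length + y'.length - 1) := by omega
        rw [h2, append_assoc, take_length_add_append, take_length_add_append] at hT
        exact append_cancel_left hT
      have hres : x ++ y' = y' ++ x := by
        cases hU with
        | nil => simp only [length_nil] at hlU; omega
        | left U1 hU1 =>
          refine ih (x.length + y'.length) (by omega) x y' rfl hx hy' U1 V hU1.reduce hV.reduce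
            ?_ ?_ hT2
          · omega
          · simp only [length_append]; omega
        | right U1 hU1 =>
          rw [append_assoc] at hT2
          refine ih (x.length + y'.length) (by omega) x y' rfl hx hy' (y' ++ U1) V
            (M.right _ hU1.reduce) hV.reduce ?_ ?_ hT2
          · simp only [length_append] at hlU ⊢; omega
          · simp only [length_append]; omega
      calc x ++ (x ++ y') = x ++ (y' ++ x) := by rw [hres]
        _ = (x ++ y') ++ x := by rw [append_assoc]
    intro x y hN hx hy U V hU hV hlU hlV hT
    rcases le_total x.length y.length with h | h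
    · exact key x y h hN hx hy U V hU hV hlU hlV hT
    · exact (key y x h (by omega) hy hx V U hV.symm hU.symm hlV hlU hT.symm).symm

lemma root : ∀ (N : ℕ) (x y : List α), x.length + y.length = N → x ++ y = y ++ x →
    ∃ t a b, x = pw t a ∧ y = pw t b := by
  intro N
  induction N using Nat.strong_induction_on with
  | _ N ih =>
    have key : ∀ (x y : List α), x.length ≤ y.length → x.length + y.length = N →
        x ++ y = y ++ x → ∃ t a b, x = pw t a ∧ y = pw t b := by
      intro x y hxy hN hc
      by_cases hx : x = []
      · subst hx; exact ⟨y, 0, 1, rfl, (pw_one y).symm⟩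
      have hx1 := length_pos_iff.2 hx
      have h1 : x = y.take x.length := by
        have := congrArg (take x.length) hc
        rw [take_left, take_append_of_le_length hxy] at this
        exact this
      obtain ⟨y', rfl⟩ : ∃ y', y = x ++ y' := ⟨y.drop x.length, by
        conv_lhs => rw [← take_append_drop x.length y, ← h1]⟩
      rw [append_assoc] at hc
      have hc' := append_cancel_left hc
      simp only [length_append] at hN
      obtain ⟨t, a, b, ha, hb⟩ := ih (x.length + y'.length) (by omega) x y' rfl hc'
      exact ⟨t, a, a + b, ha, by rw [pw_add, ← ha, ← hb]⟩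
    intro x y hN hc
    rcases le_total x.length y.length with h | h
    · exact key x y h hN hc
    · obtain ⟨t, a, b, ha, hb⟩ := key y x h (by omega) hc.symm
      exact ⟨t, b, a, hb, ha⟩

lemma pw_cancel {r X : List α} (hr : r ≠ []) {i j : ℕ} (h : pw r i ++ X = pw r j) :
    ∃ k, X = pw r k := by
  have hr1 := length_pos_iff.2 hr
  have hl := congrArg length h
  rw [length_append, pw_length, pw_length] at hl
  have hij : i ≤ j := by
    by_contra hcon
    have : j * r.length < i * r.length := Nat.mul_lt_mul_of_pos_right (by omega) hr1
    omega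
  obtain ⟨k, rfl⟩ := Nat.exists_eq_add_of_le hij
  rw [pw_add] at h
  exact ⟨k, append_cancel_left h⟩

lemma cm_pw {r W : List α} (h : r ++ W = W ++ r) (k : ℕ) : r ++ pw W k = pw W k ++ r := by
  induction k with
  | zero => simp [pw]
  | succ k ih => rw [pw, ← append_assoc, h, append_assoc, ih, append_assoc]

lemma cm_app {r W W' : List α} (h : r ++ W = W ++ r) (h' : r ++ W' = W' ++ r) :
    r ++ (W ++ W') = (W ++ W') ++ r := by
  rw [← append_assoc, h, append_assoc, h', append_assoc]

lemma cm_pw_left {r W : List α} (h : r ++ W = W ++ r) (k : ℕ) : pw r k ++ W = W ++ pw r k :=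
  (cm_pw h.symm k).symm

lemma cm_eq {r X Y : List α} (hr : r ≠ []) (hX : r ++ X = X ++ r) (hY : r ++ Y = Y ++ r)
    (hl : X.length = Y.length) : X = Y := by
  have hr1 := length_pos_iff.2 hr
  have hb : X.length ≤ (pw r X.length).length := by
    rw [pw_length]; exact Nat.le_mul_of_pos_right _ hr1
  have h1 : X = (pw r X.length).take X.length := by
    have := congrArg (take X.length) (cm_pw_left hX X.length)
    rw [take_append_of_le_length hb, take_left] at this
    exact this.symm
  have h2 : Y = (pw r X.length).take X.length := by
    have := congrArg (take X.length) (cm_pw_left hY X.length)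
    rw [take_append_of_le_length hb, hl, take_left] at this
    rw [hl]; exact this.symm
  rw [h1, h2]

/-- the image of an index word -/
abbrev img (f : Fin 2 → List Bool) (l : List (Fin 2)) : List Bool := (l.map f).flatten

lemma img_replicate (f : Fin 2 → List Bool) (i : Fin 2) (k : ℕ) :
    img f (replicate k i) = pw (f i) k := by
  induction k with
  | zero => simp [img, pw]
  | succ k ih => simp only [img, replicate_succ, map_cons, flatten_cons, pw] at ih ⊢; rw [ih]

lemma img_append (f : Fin 2 → List Bool) (l l' : List (Fin 2)) :
    img f (l ++ l') = img f l ++ img f l' := by simp [img]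

lemma img_M (f : Fin 2 → List Bool) {i j : Fin 2} (hij : i ≠ j) (l : List (Fin 2)) :
    M (f i) (f j) (img f l) := by
  induction l with
  | nil => exact M.nil
  | cons a l ih =>
    have ha : a = i ∨ a = j := by omega
    rcases ha with rfl | rfl
    · exact M.left _ ih
    · exact M.right _ ih

/-- first letters of equal length -/
lemma first_eq {u v : Fin 2 → List Bool} {l : List (Fin 2)} {i : Fin 2}
    (h : (u i).length = (v i).length) (hs : img u (i :: l) = img v (i :: l)) : u i = v i := by
  simp only [img, map_cons, flatten_cons] at hs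
  exact (append_inj hs h).1

lemma img_length (f : Fin 2 → List Bool) (l : List (Fin 2)) :
    (img f l).length = l.count 0 * (f 0).length + l.count 1 * (f 1).length := by
  induction l with
  | nil => simp [img]
  | cons a l ih =>
    have ha : a = 0 ∨ a = 1 := by omega
    simp only [img, map_cons, flatten_cons, length_append] at ih ⊢
    rw [ih]
    rcases ha with rfl | rfl
    · simp; ring
    · simp; ring

lemma count_length (l : List (Fin 2)) : l.length = l.count 0 + l.count 1 := by
  induction l with
  | nil => simp
  | cons a l ih =>
    have ha : a = 0 ∨ a = 1 := by omega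
    rcases ha with rfl | rfl
    · simp [ih]; ring
    · simp [ih]; ring


lemma M.append {x y W W' : List α} (h : M x y W) (h' : M x y W') : M x y (W ++ W') := by
  induction h with
  | nil => simpa using h'
  | left W _ ih => rw [append_assoc]; exact M.left _ ih
  | right W _ ih => rw [append_assoc]; exact M.right _ ih

/-- equal words starting differently force commutation -/
lemma commute_of_eq {x y U V : List α} (hx : x ≠ []) (hy : y ≠ []) (hU : M x y U)
    (hV : M x y V) (h : x ++ U = y ++ V) : x ++ y = y ++ x := by
  have hW : M x y (pw x (x.length + y.length)) := by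
    simpa using M.pwLeft (x := x) (y := y) M.nil (x.length + y.length)
  have hx1 := length_pos_iff.2 hx
  have hWl : x.length + y.length ≤ (pw x (x.length + y.length)).length := by
    rw [pw_length]; exact Nat.le_mul_of_pos_right _ hx1
  refine commute_of_take (x.length + y.length) x y rfl hx hy
    (U ++ pw x (x.length + y.length)) (V ++ pw x (x.length + y.length))
    (hU.append hW) (hV.append hW) ?_ ?_ ?_
  · simp only [length_append]; omega
  · simp only [length_append]; omega
  · rw [← append_assoc, ← append_assoc, h]

lemma commute_of_pw {x y : List α} {a b : ℕ} (hx : x ≠ []) (hy : y ≠ []) (ha : 0 < a)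
    (hb : 0 < b) (h : pw x a = pw y b) : x ++ y = y ++ x := by
  obtain ⟨a, rfl⟩ : ∃ c, a = c + 1 := ⟨a - 1, by omega⟩
  obtain ⟨b, rfl⟩ : ∃ c, b = c + 1 := ⟨b - 1, by omega⟩
  refine commute_of_eq hx hy (U := pw x a) (V := pw y b) ?_ ?_ h
  · simpa using M.pwLeft (x := x) (y := y) M.nil a
  · have := M.pwLeft (x := y) (y := x) M.nil b
    simpa using this.symm

/-- a binary morphism with noncommuting images is injective -/
lemma img_inj {v : Fin 2 → List Bool} (hv : ∀ i, v i ≠ []) (hnc : v 0 ++ v 1 ≠ v 1 ++ v 0) :
    ∀ p q : List (Fin 2), img v p = img v q → p = q := by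
  intro p
  induction p with
  | nil =>
    intro q h
    cases q with
    | nil => rfl
    | cons b q =>
      exfalso
      simp only [img, map_nil, flatten_nil, map_cons, flatten_cons] at h
      exact hv b (append_eq_nil_iff.1 h.symm).1
  | cons a p ih =>
    intro q h
    cases q with
    | nil =>
      exfalso
      simp only [img, map_nil, flatten_nil, map_cons, flatten_cons] at h
      exact hv a (append_eq_nil_iff.1 h).1
    | cons b q =>
      by_cases hab : a = b
      · subst hab
        simp only [img, map_cons, flatten_cons] at h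
        rw [ih q (append_cancel_left h)]
      · exfalso
        have hc : v a ++ v b = v b ++ v a := by
          refine commute_of_eq (hv a) (hv b) (img_M v hab p) (img_M v (Ne.symm hab) q).symm ?_
          simpa [img] using h
        have ha : (a = 0 ∧ b = 1) ∨ (a = 1 ∧ b = 0) := by omega
        rcases ha with ⟨rfl, rfl⟩ | ⟨rfl, rfl⟩
        · exact hnc hc
        · exact hnc hc.symm

lemma img_pw (f : Fin 2 → List Bool) (l : List (Fin 2)) (k : ℕ) :
    img f (pw l k) = pw (img f l) k := by
  induction k with
  | zero => simp [pw, img]
  | succ k ih => rw [pw, img_append, ih, pw]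

lemma img_isPw {f : Fin 2 → List Bool} {t : List Bool} {a b : ℕ} (h0 : f 0 = pw t a)
    (h1 : f 1 = pw t b) (l : List (Fin 2)) : ∃ N, img f l = pw t N := by
  have h := img_M f (show (0 : Fin 2) ≠ 1 by decide) l
  rw [h0, h1] at h
  exact M.isPw h

lemma pw_take_drop {t : List Bool} {M' m s : ℕ} (hs : s ≤ M' * t.length) :
    (pw t (m + M')).take s ++ (pw t (m + M')).drop (m * t.length + s) = pw t M' := by
  have h1 : (pw t (m + M')).take s = (pw t M').take s := by
    rw [add_comm, pw_add, take_append_of_le_length (by rw [pw_length]; exact hs)]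
  have h2 : (pw t (m + M')).drop (m * t.length + s) = (pw t M').drop s := by
    have h3 := pw_length t m
    rw [pw_add, ← h3, drop_length_add_append]
  rw [h1, h2, take_append_drop]

lemma arith2 {c0 c1 a0 b0 a1 b1 : ℕ} (hlen : c0 * a0 + c1 * a1 = c0 * b0 + c1 * b1)
    (hpos : 0 < c0 + c1) (h0 : ¬ a0 = b0) (h1 : ¬ a1 = b1) :
    (a1 - b1 + (b1 - a1)) * a0 + (a0 - b0 + (b0 - a0)) * a1 =
      (a1 - b1 + (b1 - a1)) * b0 + (a0 - b0 + (b0 - a0)) * b1 := by
  rcases lt_or_gt_of_ne h0 with h | h
  · obtain ⟨x, rfl⟩ := Nat.exists_eq_add_of_lt h
    rcases lt_or_gt_of_ne h1 with h' | h'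
    · exfalso
      obtain ⟨y, rfl⟩ := Nat.exists_eq_add_of_lt h'
      have e1 : c0 * (a0 + x + 1) = c0 * a0 + c0 * (x + 1) := by ring
      have e2 : c1 * (a1 + y + 1) = c1 * a1 + c1 * (y + 1) := by ring
      have e3 : 0 < c0 ∨ 0 < c1 := by omega
      rcases e3 with e3 | e3
      · have : 0 < c0 * (x + 1) := by positivity
        omega
      · have : 0 < c1 * (y + 1) := by positivity
        omega
    · obtain ⟨y, rfl⟩ := Nat.exists_eq_add_of_lt h'
      have e1 : b1 + y + 1 - b1 + (b1 - (b1 + y + 1)) = y + 1 := by omega
      have e2 : a0 - (a0 + x + 1) + (a0 + x + 1 - a0) = x + 1 := by omega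
      rw [e1, e2]; ring
  · obtain ⟨x, rfl⟩ := Nat.exists_eq_add_of_lt h
    rcases lt_or_gt_of_ne h1 with h' | h'
    · obtain ⟨y, rfl⟩ := Nat.exists_eq_add_of_lt h'
      have e1 : a1 - (a1 + y + 1) + (a1 + y + 1 - a1) = y + 1 := by omega
      have e2 : b0 + x + 1 - b0 + (b0 - (b0 + x + 1)) = x + 1 := by omega
      rw [e1, e2]; ring
    · exfalso
      obtain ⟨y, rfl⟩ := Nat.exists_eq_add_of_lt h'
      have e1 : c0 * (b0 + x + 1) = c0 * b0 + c0 * (x + 1) := by ring
      have e2 : c1 * (b1 + y + 1) = c1 * b1 + c1 * (y + 1) := by ring
      have e3 : 0 < c0 ∨ 0 < c1 := by omega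
      rcases e3 with e3 | e3
      · have : 0 < c0 * (x + 1) := by positivity
        omega
      · have : 0 < c1 * (y + 1) := by positivity
        omega

/-- everything commutes: a short solution exists -/
lemma allCommute {n : ℕ} {u v : Fin 2 → List Bool} {r : List Bool} (hn : 1 ≤ n) (hr : r ≠ [])
    (hu : ∀ i, u i ≠ [] ∧ (u i).length ≤ n + 1) (hv : ∀ i, v i ≠ [] ∧ (v i).length ≤ n + 1)
    (hru : ∀ i, r ++ u i = u i ++ r) (hrv : ∀ i, r ++ v i = v i ++ r)
    {l : List (Fin 2)} (hl0 : l ≠ []) (hs : img u l = img v l) :
    ∃ l : List (Fin 2), l ≠ [] ∧ l.length ≤ 2 * n ∧ img u l = img v l := by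
  have hlen := congrArg length hs
  rw [img_length, img_length] at hlen
  have p1 := length_pos_iff.2 (hu 0).1
  have p2 := length_pos_iff.2 (hu 1).1
  have p3 := length_pos_iff.2 (hv 0).1
  have p4 := length_pos_iff.2 (hv 1).1
  have q1 := (hu 0).2
  have q2 := (hu 1).2
  have q3 := (hv 0).2
  have q4 := (hv 1).2
  have hcl := count_length l
  have hlp := length_pos_iff.2 hl0
  have single : ∀ i, (u i).length = (v i).length →
      ∃ l : List (Fin 2), l ≠ [] ∧ l.length ≤ 2 * n ∧ img u l = img v l := by
    intro i hi
    refine ⟨[i], by simp, by simp; omega, ?_⟩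
    have := cm_eq hr (hru i) (hrv i) hi
    simp [img, this]
  by_cases h0 : (u 0).length = (v 0).length
  · exact single 0 h0
  by_cases h1 : (u 1).length = (v 1).length
  · exact single 1 h1
  refine ⟨replicate (((u 1).length - (v 1).length) + ((v 1).length - (u 1).length)) 0 ++
    replicate (((u 0).length - (v 0).length) + ((v 0).length - (u 0).length)) 1, ?_, ?_, ?_⟩
  · intro hcon
    have h2 := congrArg length hcon
    simp only [length_append, length_replicate, length_nil] at h2
    omega
  · simp only [length_append, length_replicate]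
    omega
  · rw [img_append, img_append, img_replicate, img_replicate, img_replicate, img_replicate]
    refine cm_eq hr (cm_app (cm_pw (hru 0) _) (cm_pw (hru 1) _))
      (cm_app (cm_pw (hrv 0) _) (cm_pw (hrv 1) _)) ?_
    simp only [length_append, pw_length]
    exact arith2 hlen (by omega) h0 h1

lemma ne_nil_of_pw {t : List Bool} {a : ℕ} (h : pw t a ≠ []) : t ≠ [] ∧ 0 < a := by
  have h1 := length_pos_iff.2 h
  rw [pw_length] at h1
  constructor
  · rintro rfl; simp at h1
  · rcases Nat.eq_zero_or_pos a with h0 | h0
    · subst h0; simp at h1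
    · exact h0

lemma periodic {n : ℕ} {u v : Fin 2 → List Bool} (hn : 1 ≤ n)
    (hu : ∀ i, u i ≠ [] ∧ (u i).length ≤ n + 1) (hv : ∀ i, v i ≠ [] ∧ (v i).length ≤ n + 1)
    (hcu : u 0 ++ u 1 = u 1 ++ u 0) :
    ∀ (L : ℕ) (l : List (Fin 2)), l.length = L → l ≠ [] → img u l = img v l →
    ∃ l : List (Fin 2), l ≠ [] ∧ l.length ≤ 2 * n ∧ img u l = img v l := by
  obtain ⟨t, a, b, ha, hb⟩ := root _ (u 0) (u 1) rfl hcu
  have hta := ne_nil_of_pw (ha ▸ (hu 0).1)
  have ht0 := hta.1
  have ht1 := length_pos_iff.2 ht0
  have htu : ∀ i, t ++ u i = u i ++ t := by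
    intro i
    have hi : i = 0 ∨ i = 1 := by omega
    rcases hi with rfl | rfl
    · rw [ha]; exact cm_pw (r := t) (W := t) rfl a
    · rw [hb]; exact cm_pw (r := t) (W := t) rfl b
  have htn : t.length ≤ n + 1 := by
    have h1 := (hu 0).2
    rw [ha, pw_length] at h1
    exact (Nat.le_mul_of_pos_left _ hta.2).trans h1
  intro L
  induction L using Nat.strong_induction_on with
  | _ L ih =>
    intro l hL hl0 hs
    rcases Nat.lt_or_ge (2 * n) L with hLn | hLn
    swap
    · exact ⟨l, hl0, by omega, hs⟩
    obtain ⟨M0, hM0⟩ := img_isPw ha hb l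
    have hZ : img v l = pw t M0 := by rw [← hs, hM0]
    by_cases hcv : v 0 ++ v 1 = v 1 ++ v 0
    · -- both sides periodic
      obtain ⟨s, c, d, hc, hd⟩ := root _ (v 0) (v 1) rfl hcv
      have hsc := ne_nil_of_pw (hc ▸ (hv 0).1)
      obtain ⟨M1, hM1⟩ := img_isPw hc hd l
      have hne : img v l ≠ [] := by
        obtain ⟨x, l', rfl⟩ := exists_cons_of_ne_nil hl0
        simp only [img, map_cons, flatten_cons]
        exact fun h => (hv x).1 (append_eq_nil_iff.1 h).1
      have hts : t ++ s = s ++ t := by
        refine commute_of_pw ht0 hsc.1 (ne_nil_of_pw (hZ ▸ hne)).2 (ne_nil_of_pw (hM1 ▸ hne)).2 ?_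
        rw [← hZ, hM1]
      refine allCommute hn ht0 hu hv htu ?_ hl0 hs
      intro i
      have hi : i = 0 ∨ i = 1 := by omega
      rcases hi with rfl | rfl
      · rw [hc]; exact cm_pw hts c
      · rw [hd]; exact cm_pw hts d
    · -- pigeonhole on the boundaries of the `v`-image
      have hinj := img_inj (fun i => (hv i).1) hcv
      obtain ⟨i, hi, j, hj, hij, hmod⟩ : ∃ i ∈ Finset.range L, ∃ j ∈ Finset.range L, i ≠ j ∧
          (img v (l.take i)).length % t.length = (img v (l.take j)).length % t.length := by
        apply Finset.exists_ne_map_eq_of_card_lt_of_maps_to (t := Finset.range t.length)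
        · simp only [Finset.card_range]; omega
        · intro i _
          simp only [Finset.coe_range, Set.mem_Iio]
          exact Nat.mod_lt _ ht1
      rw [Finset.mem_range] at hi hj
      wlog hlt : i < j generalizing i j with H
      · exact H j hj i hi (Ne.symm hij) hmod.symm (by omega)
      -- split
      obtain ⟨y, hy⟩ : ∃ y, l.take j = l.take i ++ y := ⟨(l.take j).drop i, by
        conv_lhs => rw [← take_append_drop i (l.take j), take_take, min_eq_left hlt.le]⟩
      have hl : l = l.take i ++ (y ++ l.drop j) := by
        rw [← append_assoc, ← hy, take_append_drop]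
      obtain ⟨x, hx⟩ : ∃ x, x = l.take i := ⟨_, rfl⟩
      obtain ⟨z, hz⟩ : ∃ z, z = l.drop j := ⟨_, rfl⟩
      have hzl : z.length = L - j := by rw [hz, length_drop, hL]
      have hyl : y.length = j - i := by
        have := congrArg length hy
        rw [length_append, length_take, length_take, hL] at this
        omega
      have hxl : x.length = i := by rw [hx, length_take, hL]; omega
      rw [← hx] at hy hmod hl
      rw [← hz] at hl
      rw [hy] at hmod
      have hvy : ∃ m, (img v y).length = m * t.length := by
        rw [img_append, length_append] at hmod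
        have h1 : ((img v x).length + (img v y).length) ≡ (img v x).length + 0 [MOD t.length] := by
          rw [add_zero]
          exact hmod.symm
        have h2 := Nat.ModEq.add_left_cancel' _ h1
        obtain ⟨m, hm⟩ := (Nat.modEq_zero_iff_dvd.1 h2)
        exact ⟨m, by rw [hm, mul_comm]⟩
      obtain ⟨m, hm⟩ := hvy
      have hZ2 : img v x ++ (img v y ++ img v z) = pw t M0 := by
        rw [← hZ]; conv_rhs => rw [hl]
        rw [img_append, img_append]
      have hlenZ := congrArg length hZ2
      simp only [length_append, pw_length] at hlenZ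
      have hmM : m ≤ M0 := by
        by_contra hcon
        have : M0 * t.length < m * t.length := Nat.mul_lt_mul_of_pos_right (by omega) ht1
        omega
      obtain ⟨M', rfl⟩ := Nat.exists_eq_add_of_le hmM
      have hxz : img v (x ++ z) = pw t M' := by
        have h1 : img v x = (pw t (m + M')).take (img v x).length := by
          rw [← hZ2, take_left]
        have h2 : img v z = (pw t (m + M')).drop (m * t.length + (img v x).length) := by
          rw [← hZ2, ← hm, ← append_assoc, add_comm, ← length_append, drop_left]
        rw [img_append]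
        conv_lhs => rw [h1, h2]
        refine pw_take_drop ?_
        have : (m + M') * t.length = m * t.length + M' * t.length := by ring
        omega
      have hcomm : (x ++ z) ++ l = l ++ (x ++ z) := by
        apply hinj
        rw [img_append v (x ++ z) l, img_append v l (x ++ z), hxz, hZ, ← pw_add, ← pw_add,
          add_comm]
      obtain ⟨ρ, e, f, he, hf⟩ := root _ (x ++ z) l rfl hcomm
      have hef : e * ρ.length < f * ρ.length := by
        rw [← pw_length, ← pw_length, ← he, ← hf, length_append]
        omega
      have hef' : e < f := Nat.lt_of_mul_lt_mul_right hef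
      have hzpos : 0 < z.length := by omega
      have he1 : 0 < e := by
        rcases Nat.eq_zero_or_pos e with h0 | h0
        · subst h0
          have := congrArg length he
          simp only [length_append, pw, length_nil] at this
          omega
        · exact h0
      have hρ0 : ρ ≠ [] := by
        rintro rfl
        simp at hef
      have hρ1 := length_pos_iff.2 hρ0
      have hlρ : L = f * ρ.length := by rw [← hL, hf, pw_length]
      have hρL : ρ.length < L := by
        rw [hlρ]
        calc ρ.length = 1 * ρ.length := by ring
          _ < f * ρ.length := Nat.mul_lt_mul_of_pos_right (by omega) hρ1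
      refine ih ρ.length hρL ρ rfl hρ0 ?_
      rw [hf, img_pw, img_pw] at hs
      rw [hf, img_pw] at hZ
      have hlen2 : (img u ρ).length = (img v ρ).length := by
        have := congrArg length hs
        rw [pw_length, pw_length] at this
        exact Nat.eq_of_mul_eq_mul_left (by omega) this
      have hvne : img v ρ ≠ [] := by
        obtain ⟨x, l', rfl⟩ := exists_cons_of_ne_nil hρ0
        simp only [img, map_cons, flatten_cons]
        exact fun h => (hv x).1 (append_eq_nil_iff.1 h).1
      have hM0pos : 0 < m + M' := by
        have h1 : pw (img v ρ) f ≠ [] := by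
          intro h
          have h2 := congrArg length h
          rw [pw_length] at h2
          have h3 := length_pos_iff.2 hvne
          have h4 : 0 < f * (img v ρ).length := Nat.mul_pos (by omega) h3
          simp only [length_nil] at h2
          omega
        rw [hZ] at h1
        exact (ne_nil_of_pw h1).2
      have hcm : img v ρ ++ t = t ++ img v ρ :=
        commute_of_pw hvne ht0 (by omega) hM0pos hZ
      obtain ⟨k, hk⟩ := img_isPw ha hb ρ
      refine cm_eq ht0 ?_ hcm.symm hlen2
      rw [hk]; exact cm_pw (r := t) (W := t) rfl k

/-- Two-pair instances of the Post correspondence problem in which the two top words commute or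
the two bottom words commute: a solvable instance with nonempty binary words of length at most
`n + 1` has a solution of length at most `2 n`. -/
theorem result : ∀ (n : ℕ) (u v : Fin 2 → List Bool), 1 ≤ n →
    (∀ i, u i ≠ [] ∧ (u i).length ≤ n + 1) → (∀ i, v i ≠ [] ∧ (v i).length ≤ n + 1) →
    (u 0 ++ u 1 = u 1 ++ u 0 ∨ v 0 ++ v 1 = v 1 ++ v 0) →
    (∃ l : List (Fin 2), l ≠ [] ∧ (l.map u).flatten = (l.map v).flatten) →
    ∃ l : List (Fin 2), l ≠ [] ∧ l.length ≤ 2 * n ∧ (l.map u).flatten = (l.map v).flatten := by
  intro n u v hn hu hv hcom ⟨l, hl0, hs⟩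
  rcases hcom with h | h
  · exact periodic hn hu hv h _ l rfl hl0 hs
  · obtain ⟨l', h1, h2, h3⟩ := periodic hn hv hu h _ l rfl hl0 hs.symm
    exact ⟨l', h1, h2, h3.symm⟩

end Pool.Agent.Results.MP_352312_lc.PeriodicSide
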