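import Mathlib

set_option autoImplicit false

namespace Pool.Agent.Results.MP_352312_lc.UnitDiff

open List

variable {α : Type*}

/-- words over `{x, y}` -/
inductive M (x y : List α) : List α → Prop
  | nil : M x y []
  | left (W : List α) : M x y W → M x y (x ++ W)
  | right (W : List α) : M x y W → M x y (y ++ W)

lemma M.symm {x y W : List α} (h : M x y W) : M y x W := by
  induction h with
  | nil => exact M.nil
  | left W _ ih => exact M.right W ih
  | right W _ ih => exact M.left W ih

lemma M.reduce {x y W : List α} (h : M x (x ++ y) W) : M x y W := by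
  induction h with
  | nil => exact M.nil
  | left W _ ih => exact M.left W ih
  | right W _ ih => rw [append_assoc]; exact M.left _ (M.right _ ih)

lemma M.app {x y W : List α} (h : M x y W) : M x y (W ++ x) := by
  induction h with
  | nil => have := M.left (x := x) (y := y) [] M.nil; simpa using this
  | left W _ ih => rw [append_assoc]; exact M.left _ ih
  | right W _ ih => rw [append_assoc]; exact M.right _ ih

/-- powers -/
def pw (x : List α) : ℕ → List α
  | 0 => []
  | k + 1 => x ++ pw x k

lemma pw_length (x : List α) (k : ℕ) : (pw x k).length = k * x.length := by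
  induction k with
  | zero => simp [pw]
  | succ k ih => simp [pw, ih]; ring

lemma pw_add (x : List α) (a b : ℕ) : pw x (a + b) = pw x a ++ pw x b := by
  induction a with
  | zero => simp [pw]
  | succ a ih => rw [show a + 1 + b = (a + b) + 1 by ring]; simp [pw, ih]

lemma pw_pw (x : List α) (a k : ℕ) : pw (pw x a) k = pw x (k * a) := by
  induction k with
  | zero => simp [pw]
  | succ k ih =>
    rw [pw, ih, ← pw_add]; congr 1; ring

lemma pw_one (x : List α) : pw x 1 = x := by simp [pw]

lemma M.pwLeft {x y W : List α} (h : M x y W) (k : ℕ) : M x y (pw x k ++ W) := by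
  induction k with
  | zero => simpa [pw] using h
  | succ k ih => rw [pw, append_assoc]; exact M.left _ ih

lemma M.ofPw {t y W : List α} {c : ℕ} (h : M (pw t c) y W) : M t y W := by
  induction h with
  | nil => exact M.nil
  | left W _ ih => exact M.pwLeft ih c
  | right W _ ih => exact M.right W ih

lemma M.isPw {r W : List α} {p q : ℕ} (h : M (pw r p) (pw r q) W) : ∃ N, W = pw r N := by
  induction h with
  | nil => exact ⟨0, rfl⟩
  | left W _ ih => obtain ⟨N, rfl⟩ := ih; exact ⟨p + N, by rw [pw_add]⟩
  | right W _ ih => obtain ⟨N, rfl⟩ := ih; exact ⟨q + N, by rw [pw_add]⟩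

/-- binary common prefix lemma -/
lemma commute_of_take : ∀ (N : ℕ) (x y : List α), x.length + y.length = N → x ≠ [] → y ≠ [] →
    ∀ U V, M x y U → M x y V → N - 1 ≤ (x ++ U).length → N - 1 ≤ (y ++ V).length →
    (x ++ U).take (N - 1) = (y ++ V).take (N - 1) → x ++ y = y ++ x := by
  intro N
  induction N using Nat.strong_induction_on with
  | _ N ih =>
    have key : ∀ (x y : List α), x.length ≤ y.length → x.length + y.length = N → x ≠ [] →
        y ≠ [] → ∀ U V, M x y U → M x y V → N - 1 ≤ (x ++ U).length →
        N - 1 ≤ (y ++ V).length → (x ++ U).take (N - 1) = (y ++ V).take (N - 1) →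
        x ++ y = y ++ x := by
      intro x y hxy hN hx hy U V hU hV hlU hlV hT
      have hx1 := length_pos_iff.2 hx
      have hy1 := length_pos_iff.2 hy
      have h1 : x = y.take x.length := by
        have := congrArg (take x.length) hT
        rw [take_take, take_take, min_eq_left (by omega), take_left,
          take_append_of_le_length hxy] at this
        exact this
      obtain ⟨y', rfl⟩ : ∃ y', y = x ++ y' := ⟨y.drop x.length, by
        conv_lhs => rw [← take_append_drop x.length y, ← h1]⟩
      by_cases hy' : y' = []
      · subst hy'; simp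
      have hy'1 := length_pos_iff.2 hy'
      simp only [length_append] at hN hlU hlV
      have hT2 : U.take (x.length + y'.length - 1) = (y' ++ V).take (x.length + y'.length - 1) := by
        have h2 : N - 1 = x.length + (x.length + y'.length - 1) := by omega
        rw [h2, append_assoc, take_length_add_append, take_length_add_append] at hT
        exact append_cancel_left hT
      have hres : x ++ y' = y' ++ x := by
        cases hU with
        | nil => simp only [length_nil] at hlU; omega
        | left U1 hU1 =>
          refine ih (x.length + y'.length) (by omega) x y' rfl hx hy' U1 V hU1.reduce hV.reduce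
            ?_ ?_ hT2
          · omega
          · simp only [length_append]; omega
        | right U1 hU1 =>
          rw [append_assoc] at hT2
          refine ih (x.length + y'.length) (by omega) x y' rfl hx hy' (y' ++ U1) V
            (M.right _ hU1.reduce) hV.reduce ?_ ?_ hT2
          · simp only [length_append] at hlU ⊢; omega
          · simp only [length_append]; omega
      calc x ++ (x ++ y') = x ++ (y' ++ x) := by rw [hres]
        _ = (x ++ y') ++ x := by rw [append_assoc]
    intro x y hN hx hy U V hU hV hlU hlV hT
    rcases le_total x.length y.length with h | h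
    · exact key x y h hN hx hy U V hU hV hlU hlV hT
    · exact (key y x h (by omega) hy hx V U hV.symm hU.symm hlV hlU hT.symm).symm

lemma root : ∀ (N : ℕ) (x y : List α), x.length + y.length = N → x ++ y = y ++ x →
    ∃ t a b, x = pw t a ∧ y = pw t b := by
  intro N
  induction N using Nat.strong_induction_on with
  | _ N ih =>
    have key : ∀ (x y : List α), x.length ≤ y.length → x.length + y.length = N →
        x ++ y = y ++ x → ∃ t a b, x = pw t a ∧ y = pw t b := by
      intro x y hxy hN hc
      by_cases hx : x = []
      · subst hx; exact ⟨y, 0, 1, rfl, (pw_one y).symm⟩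
      have hx1 := length_pos_iff.2 hx
      have h1 : x = y.take x.length := by
        have := congrArg (take x.length) hc
        rw [take_left, take_append_of_le_length hxy] at this
        exact this
      obtain ⟨y', rfl⟩ : ∃ y', y = x ++ y' := ⟨y.drop x.length, by
        conv_lhs => rw [← take_append_drop x.length y, ← h1]⟩
      rw [append_assoc] at hc
      have hc' := append_cancel_left hc
      simp only [length_append] at hN
      obtain ⟨t, a, b, ha, hb⟩ := ih (x.length + y'.length) (by omega) x y' rfl hc'
      exact ⟨t, a, a + b, ha, by rw [pw_add, ← ha, ← hb]⟩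
    intro x y hN hc
    rcases le_total x.length y.length with h | h
    · exact key x y h hN hc
    · obtain ⟨t, a, b, ha, hb⟩ := key y x h (by omega) hc.symm
      exact ⟨t, b, a, hb, ha⟩

lemma pw_cancel {r X : List α} (hr : r ≠ []) {i j : ℕ} (h : pw r i ++ X = pw r j) :
    ∃ k, X = pw r k := by
  have hr1 := length_pos_iff.2 hr
  have hl := congrArg length h
  rw [length_append, pw_length, pw_length] at hl
  have hij : i ≤ j := by
    by_contra hcon
    have : j * r.length < i * r.length := Nat.mul_lt_mul_of_pos_right (by omega) hr1
    omega
  obtain ⟨k, rfl⟩ := Nat.exists_eq_add_of_le hij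
  rw [pw_add] at h
  exact ⟨k, append_cancel_left h⟩

lemma cm_pw {r W : List α} (h : r ++ W = W ++ r) (k : ℕ) : r ++ pw W k = pw W k ++ r := by
  induction k with
  | zero => simp [pw]
  | succ k ih => rw [pw, ← append_assoc, h, append_assoc, ih, append_assoc]

lemma cm_app {r W W' : List α} (h : r ++ W = W ++ r) (h' : r ++ W' = W' ++ r) :
    r ++ (W ++ W') = (W ++ W') ++ r := by
  rw [← append_assoc, h, append_assoc, h', append_assoc]

lemma cm_pw_left {r W : List α} (h : r ++ W = W ++ r) (k : ℕ) : pw r k ++ W = W ++ pw r k :=
  (cm_pw h.symm k).symm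

lemma cm_eq {r X Y : List α} (hr : r ≠ []) (hX : r ++ X = X ++ r) (hY : r ++ Y = Y ++ r)
    (hl : X.length = Y.length) : X = Y := by
  have hr1 := length_pos_iff.2 hr
  have hb : X.length ≤ (pw r X.length).length := by
    rw [pw_length]; exact Nat.le_mul_of_pos_right _ hr1
  have h1 : X = (pw r X.length).take X.length := by
    have := congrArg (take X.length) (cm_pw_left hX X.length)
    rw [take_append_of_le_length hb, take_left] at this
    exact this.symm
  have h2 : Y = (pw r X.length).take X.length := by
    have := congrArg (take X.length) (cm_pw_left hY X.length)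
    rw [take_append_of_le_length hb, hl, take_left] at this
    rw [hl]; exact this.symm
  rw [h1, h2]

/-- the image of an index word -/
abbrev img (f : Fin 2 → List Bool) (l : List (Fin 2)) : List Bool := (l.map f).flatten

lemma img_replicate (f : Fin 2 → List Bool) (i : Fin 2) (k : ℕ) :
    img f (replicate k i) = pw (f i) k := by
  induction k with
  | zero => simp [img, pw]
  | succ k ih => simp only [img, replicate_succ, map_cons, flatten_cons, pw] at ih ⊢; rw [ih]

lemma img_append (f : Fin 2 → List Bool) (l l' : List (Fin 2)) :
    img f (l ++ l') = img f l ++ img f l' := by simp [img]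

lemma img_M (f : Fin 2 → List Bool) {i j : Fin 2} (hij : i ≠ j) (l : List (Fin 2)) :
    M (f i) (f j) (img f l) := by
  induction l with
  | nil => exact M.nil
  | cons a l ih =>
    have ha : a = i ∨ a = j := by omega
    rcases ha with rfl | rfl
    · exact M.left _ ih
    · exact M.right _ ih

/-- first letters of equal length -/
lemma first_eq {u v : Fin 2 → List Bool} {l : List (Fin 2)} {i : Fin 2}
    (h : (u i).length = (v i).length) (hs : img u (i :: l) = img v (i :: l)) : u i = v i := by
  simp only [img, map_cons, flatten_cons] at hs
  exact (append_inj hs h).1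

lemma img_length (f : Fin 2 → List Bool) (l : List (Fin 2)) :
    (img f l).length = l.count 0 * (f 0).length + l.count 1 * (f 1).length := by
  induction l with
  | nil => simp [img]
  | cons a l ih =>
    have ha : a = 0 ∨ a = 1 := by omega
    simp only [img, map_cons, flatten_cons, length_append] at ih ⊢
    rw [ih]
    rcases ha with rfl | rfl
    · simp; ring
    · simp; ring

lemma count_length (l : List (Fin 2)) : l.length = l.count 0 + l.count 1 := by
  induction l with
  | nil => simp
  | cons a l ih =>
    have ha : a = 0 ∨ a = 1 := by omega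
    rcases ha with rfl | rfl
    · simp [ih]; ring
    · simp [ih]; ring


lemma M.append {x y W W' : List α} (h : M x y W) (h' : M x y W') : M x y (W ++ W') := by
  induction h with
  | nil => simpa using h'
  | left W _ ih => rw [append_assoc]; exact M.left _ ih
  | right W _ ih => rw [append_assoc]; exact M.right _ ih

/-- equal words starting differently force commutation -/
lemma commute_of_eq {x y U V : List α} (hx : x ≠ []) (hy : y ≠ []) (hU : M x y U)
    (hV : M x y V) (h : x ++ U = y ++ V) : x ++ y = y ++ x := by
  have hW : M x y (pw x (x.length + y.length)) := by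
    simpa using M.pwLeft (x := x) (y := y) M.nil (x.length + y.length)
  have hx1 := length_pos_iff.2 hx
  have hWl : x.length + y.length ≤ (pw x (x.length + y.length)).length := by
    rw [pw_length]; exact Nat.le_mul_of_pos_right _ hx1
  refine commute_of_take (x.length + y.length) x y rfl hx hy
    (U ++ pw x (x.length + y.length)) (V ++ pw x (x.length + y.length))
    (hU.append hW) (hV.append hW) ?_ ?_ ?_
  · simp only [length_append]; omega
  · simp only [length_append]; omega
  · rw [← append_assoc, ← append_assoc, h]

lemma commute_of_pw {x y : List α} {a b : ℕ} (hx : x ≠ []) (hy : y ≠ []) (ha : 0 < a)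
    (hb : 0 < b) (h : pw x a = pw y b) : x ++ y = y ++ x := by
  obtain ⟨a, rfl⟩ : ∃ c, a = c + 1 := ⟨a - 1, by omega⟩
  obtain ⟨b, rfl⟩ : ∃ c, b = c + 1 := ⟨b - 1, by omega⟩
  refine commute_of_eq hx hy (U := pw x a) (V := pw y b) ?_ ?_ h
  · simpa using M.pwLeft (x := x) (y := y) M.nil a
  · have := M.pwLeft (x := y) (y := x) M.nil b
    simpa using this.symm

/-- a binary morphism with noncommuting images is injective -/
lemma img_inj {v : Fin 2 → List Bool} (hv : ∀ i, v i ≠ []) (hnc : v 0 ++ v 1 ≠ v 1 ++ v 0) :
    ∀ p q : List (Fin 2), img v p = img v q → p = q := by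
  intro p
  induction p with
  | nil =>
    intro q h
    cases q with
    | nil => rfl
    | cons b q =>
      exfalso
      simp only [img, map_nil, flatten_nil, map_cons, flatten_cons] at h
      exact hv b (append_eq_nil_iff.1 h.symm).1
  | cons a p ih =>
    intro q h
    cases q with
    | nil =>
      exfalso
      simp only [img, map_nil, flatten_nil, map_cons, flatten_cons] at h
      exact hv a (append_eq_nil_iff.1 h).1
    | cons b q =>
      by_cases hab : a = b
      · subst hab
        simp only [img, map_cons, flatten_cons] at h
        rw [ih q (append_cancel_left h)]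
      · exfalso
        have hc : v a ++ v b = v b ++ v a := by
          refine commute_of_eq (hv a) (hv b) (img_M v hab p) (img_M v (Ne.symm hab) q).symm ?_
          simpa [img] using h
        have ha : (a = 0 ∧ b = 1) ∨ (a = 1 ∧ b = 0) := by omega
        rcases ha with ⟨rfl, rfl⟩ | ⟨rfl, rfl⟩
        · exact hnc hc
        · exact hnc hc.symm

lemma img_pw (f : Fin 2 → List Bool) (l : List (Fin 2)) (k : ℕ) :
    img f (pw l k) = pw (img f l) k := by
  induction k with
  | zero => simp [pw, img]
  | succ k ih => rw [pw, img_append, ih, pw]

lemma img_isPw {f : Fin 2 → List Bool} {t : List Bool} {a b : ℕ} (h0 : f 0 = pw t a)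
    (h1 : f 1 = pw t b) (l : List (Fin 2)) : ∃ N, img f l = pw t N := by
  have h := img_M f (show (0 : Fin 2) ≠ 1 by decide) l
  rw [h0, h1] at h
  exact M.isPw h

lemma pw_take_drop {t : List Bool} {M' m s : ℕ} (hs : s ≤ M' * t.length) :
    (pw t (m + M')).take s ++ (pw t (m + M')).drop (m * t.length + s) = pw t M' := by
  have h1 : (pw t (m + M')).take s = (pw t M').take s := by
    rw [add_comm, pw_add, take_append_of_le_length (by rw [pw_length]; exact hs)]
  have h2 : (pw t (m + M')).drop (m * t.length + s) = (pw t M').drop s := by
    have h3 := pw_length t m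
    rw [pw_add, ← h3, drop_length_add_append]
  rw [h1, h2, take_append_drop]

lemma arith2 {c0 c1 a0 b0 a1 b1 : ℕ} (hlen : c0 * a0 + c1 * a1 = c0 * b0 + c1 * b1)
    (hpos : 0 < c0 + c1) (h0 : ¬ a0 = b0) (h1 : ¬ a1 = b1) :
    (a1 - b1 + (b1 - a1)) * a0 + (a0 - b0 + (b0 - a0)) * a1 =
      (a1 - b1 + (b1 - a1)) * b0 + (a0 - b0 + (b0 - a0)) * b1 := by
  rcases lt_or_gt_of_ne h0 with h | h
  · obtain ⟨x, rfl⟩ := Nat.exists_eq_add_of_lt h
    rcases lt_or_gt_of_ne h1 with h' | h'
    · exfalso
      obtain ⟨y, rfl⟩ := Nat.exists_eq_add_of_lt h'
      have e1 : c0 * (a0 + x + 1) = c0 * a0 + c0 * (x + 1) := by ring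
      have e2 : c1 * (a1 + y + 1) = c1 * a1 + c1 * (y + 1) := by ring
      have e3 : 0 < c0 ∨ 0 < c1 := by omega
      rcases e3 with e3 | e3
      · have : 0 < c0 * (x + 1) := by positivity
        omega
      · have : 0 < c1 * (y + 1) := by positivity
        omega
    · obtain ⟨y, rfl⟩ := Nat.exists_eq_add_of_lt h'
      have e1 : b1 + y + 1 - b1 + (b1 - (b1 + y + 1)) = y + 1 := by omega
      have e2 : a0 - (a0 + x + 1) + (a0 + x + 1 - a0) = x + 1 := by omega
      rw [e1, e2]; ring
  · obtain ⟨x, rfl⟩ := Nat.exists_eq_add_of_lt h
    rcases lt_or_gt_of_ne h1 with h' | h'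
    · obtain ⟨y, rfl⟩ := Nat.exists_eq_add_of_lt h'
      have e1 : a1 - (a1 + y + 1) + (a1 + y + 1 - a1) = y + 1 := by omega
      have e2 : b0 + x + 1 - b0 + (b0 - (b0 + x + 1)) = x + 1 := by omega
      rw [e1, e2]; ring
    · exfalso
      obtain ⟨y, rfl⟩ := Nat.exists_eq_add_of_lt h'
      have e1 : c0 * (b0 + x + 1) = c0 * b0 + c0 * (x + 1) := by ring
      have e2 : c1 * (b1 + y + 1) = c1 * b1 + c1 * (y + 1) := by ring
      have e3 : 0 < c0 ∨ 0 < c1 := by omega
      rcases e3 with e3 | e3
      · have : 0 < c0 * (x + 1) := by positivity
        omega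
      · have : 0 < c1 * (y + 1) := by positivity
        omega

/-- everything commutes: a short solution exists -/
lemma allCommute {n : ℕ} {u v : Fin 2 → List Bool} {r : List Bool} (hn : 1 ≤ n) (hr : r ≠ [])
    (hu : ∀ i, u i ≠ [] ∧ (u i).length ≤ n + 1) (hv : ∀ i, v i ≠ [] ∧ (v i).length ≤ n + 1)
    (hru : ∀ i, r ++ u i = u i ++ r) (hrv : ∀ i, r ++ v i = v i ++ r)
    {l : List (Fin 2)} (hl0 : l ≠ []) (hs : img u l = img v l) :
    ∃ l : List (Fin 2), l ≠ [] ∧ l.length ≤ 2 * n ∧ img u l = img v l := by
  have hlen := congrArg length hs
  rw [img_length, img_length] at hlen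
  have p1 := length_pos_iff.2 (hu 0).1
  have p2 := length_pos_iff.2 (hu 1).1
  have p3 := length_pos_iff.2 (hv 0).1
  have p4 := length_pos_iff.2 (hv 1).1
  have q1 := (hu 0).2
  have q2 := (hu 1).2
  have q3 := (hv 0).2
  have q4 := (hv 1).2
  have hcl := count_length l
  have hlp := length_pos_iff.2 hl0
  have single : ∀ i, (u i).length = (v i).length →
      ∃ l : List (Fin 2), l ≠ [] ∧ l.length ≤ 2 * n ∧ img u l = img v l := by
    intro i hi
    refine ⟨[i], by simp, by simp; omega, ?_⟩
    have := cm_eq hr (hru i) (hrv i) hi
    simp [img, this]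
  by_cases h0 : (u 0).length = (v 0).length
  · exact single 0 h0
  by_cases h1 : (u 1).length = (v 1).length
  · exact single 1 h1
  refine ⟨replicate (((u 1).length - (v 1).length) + ((v 1).length - (u 1).length)) 0 ++
    replicate (((u 0).length - (v 0).length) + ((v 0).length - (u 0).length)) 1, ?_, ?_, ?_⟩
  · intro hcon
    have h2 := congrArg length hcon
    simp only [length_append, length_replicate, length_nil] at h2
    omega
  · simp only [length_append, length_replicate]
    omega
  · rw [img_append, img_append, img_replicate, img_replicate, img_replicate, img_replicate]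
    refine cm_eq hr (cm_app (cm_pw (hru 0) _) (cm_pw (hru 1) _))
      (cm_app (cm_pw (hrv 0) _) (cm_pw (hrv 1) _)) ?_
    simp only [length_append, pw_length]
    exact arith2 hlen (by omega) h0 h1

lemma split_block {i j : Fin 2} (hij : i ≠ j) (l : List (Fin 2)) :
    ∃ k l', l = replicate k i ++ l' ∧ (l' = [] ∨ ∃ l'', l' = j :: l'') := by
  induction l with
  | nil => exact ⟨0, [], rfl, Or.inl rfl⟩
  | cons a l ih =>
    have ha : a = i ∨ a = j := by omega
    rcases ha with rfl | rfl
    · obtain ⟨k, l', h1, h2⟩ := ih
      exact ⟨k + 1, l', by rw [h1, replicate_succ, cons_append], h2⟩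
    · exact ⟨0, a :: l, by simp, Or.inr ⟨l, rfl⟩⟩


lemma img_count (f : Fin 2 → List Bool) (d : Bool) {i j : Fin 2} (hij : i ≠ j)
    (l : List (Fin 2)) :
    (img f l).count d = l.count i * (f i).count d + l.count j * (f j).count d := by
  induction l with
  | nil => simp [img]
  | cons a l ih =>
    have ha : a = i ∨ a = j := by omega
    simp only [img, map_cons, flatten_cons, count_append] at ih ⊢
    rw [ih]
    rcases ha with rfl | rfl
    · rw [count_cons_self, count_cons_of_ne hij]; ring
    · rw [count_cons_self, count_cons_of_ne (Ne.symm hij)]; ring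

/-- length of the final run of `c` -/
def suf (c : Bool) (W : List Bool) : ℕ := (W.reverse.takeWhile (fun x => x == c)).length

lemma suf_append_replicate (c : Bool) (W : List Bool) (m : ℕ) :
    suf c (W ++ replicate m c) = m + suf c W := by
  unfold suf
  rw [reverse_append, reverse_replicate]
  induction m with
  | zero => simp
  | succ m ih =>
    rw [replicate_succ, cons_append, takeWhile_cons]
    simp only [beq_self_eq_true, if_true, length_cons, ih]
    ring

lemma takeWhile_app (c : Bool) : ∀ (W X : List Bool), 0 < W.count (!c) →
    (W ++ X).takeWhile (fun x => x == c) = W.takeWhile (fun x => x == c) := by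
  intro W
  induction W with
  | nil => intro X h; simp at h
  | cons a W ih =>
    intro X h
    rw [cons_append, takeWhile_cons, takeWhile_cons]
    by_cases ha : a = c
    · subst ha
      simp only [beq_self_eq_true, if_true]
      rw [ih X]
      rw [count_cons_of_ne (by simp)] at h
      exact h
    · have : (a == c) = false := by simpa using ha
      simp [this]

lemma suf_append (c : Bool) (X W : List Bool) (h : 0 < W.count (!c)) :
    suf c (X ++ W) = suf c W := by
  unfold suf
  rw [reverse_append, takeWhile_app c _ _ (by rw [count_reverse]; exact h)]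

lemma eq_replicate_of_count {c : Bool} {W : List Bool} (h : W.count (!c) = 0) :
    W = replicate W.length c := by
  rw [eq_replicate_iff]
  refine ⟨rfl, fun b hb => ?_⟩
  by_contra hne
  have h1 : b = !c := by cases b <;> cases c <;> simp_all
  subst h1
  have := count_pos_iff.2 hb
  omega

lemma prefix_cmp {c : Bool} {A P X Y : List Bool} (h : A ++ X = P ++ Y)
    (hc : A.count (!c) = P.count (!c)) :
    ∃ f, A = P ++ replicate f c ∨ P = A ++ replicate f c := by
  rcases append_eq_append_iff.1 h with ⟨E, h1, h2⟩ | ⟨E, h1, h2⟩
  · refine ⟨E.length, Or.inr ?_⟩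
    have : E.count (!c) = 0 := by
      rw [h1, count_append] at hc
      omega
    rw [← eq_replicate_of_count this]
    exact h1
  · refine ⟨E.length, Or.inl ?_⟩
    have : E.count (!c) = 0 := by
      rw [h1, count_append] at hc
      omega
    rw [← eq_replicate_of_count this]
    exact h1

lemma img_rep {f : Fin 2 → List Bool} {j : Fin 2} {c : Bool} {β : ℕ} (h : f j = replicate β c)
    (k : ℕ) : img f (replicate k j) = replicate (k * β) c := by
  induction k with
  | zero => simp [img]
  | succ k ih =>
    rw [replicate_succ, ← singleton_append, img_append, ih]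
    simp only [img, map_cons, map_nil, flatten_cons, flatten_nil, append_nil, h]
    rw [replicate_append_replicate]
    congr 1; ring

lemma core {n : ℕ} {u v : Fin 2 → List Bool} {i j : Fin 2} (hij : i ≠ j) (hn : 1 ≤ n)
    (hu : ∀ i, u i ≠ [] ∧ (u i).length ≤ n + 1) (hv : ∀ i, v i ≠ [] ∧ (v i).length ≤ n + 1)
    {c : Bool} {β e : ℕ} (hB : u j = replicate β c) (hD : v j = replicate (β + e + 1) c)
    {l : List (Fin 2)} (hl0 : l ≠ []) (hs : img u l = img v l) :
    ∃ l : List (Fin 2), l ≠ [] ∧ l.length ≤ 2 * n ∧ img u l = img v l := by
  -- the index `i` occurs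
  obtain ⟨k0, l', h1, h2⟩ := split_block (Ne.symm hij) l
  obtain ⟨kr, l'', h3, h4⟩ := split_block (Ne.symm hij) l.reverse
  have hocc : 0 < l.count i := by
    rcases h2 with rfl | ⟨l3, rfl⟩
    · exfalso
      rw [append_nil] at h1
      rw [h1, img_rep hB, img_rep hD] at hs
      have := congrArg length hs
      rw [length_replicate, length_replicate] at this
      have hk : 0 < k0 := by
        rcases Nat.eq_zero_or_pos k0 with h0 | h0
        · subst h0; exact absurd h1 hl0
        · exact h0
      have h5 : k0 * (β + e + 1) = k0 * β + k0 * (e + 1) := by ring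
      have h6 : 0 < k0 * (e + 1) := by positivity
      omega
    · rw [h1, count_append]; simp
  have hcnt : (u i).count (!c) = (v i).count (!c) := by
    have h5 := congrArg (count (!c)) hs
    rw [img_count u _ hij, img_count v _ hij, hB, hD] at h5
    have h6 : ∀ m : ℕ, (replicate m c).count (!c) = 0 := by
      intro m; rw [count_replicate]; simp
    rw [h6, h6, mul_zero, add_zero, add_zero] at h5
    exact Nat.eq_of_mul_eq_mul_left hocc h5
  rcases Nat.eq_zero_or_pos ((u i).count (!c)) with hz | hpos
  · -- unary instance
    have hA := eq_replicate_of_count hz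
    have hC := eq_replicate_of_count (hcnt ▸ hz)
    have hcm : ∀ m : ℕ, [c] ++ replicate m c = replicate m c ++ [c] := by
      intro m
      rw [singleton_append, ← replicate_succ, replicate_succ']
    refine allCommute hn (r := [c]) (by simp) hu hv ?_ ?_ hl0 hs
    · intro x
      have hx : x = i ∨ x = j := by omega
      rcases hx with rfl | rfl
      · rw [hA]; exact hcm _
      · rw [hB]; exact hcm _
    · intro x
      have hx : x = i ∨ x = j := by omega
      rcases hx with rfl | rfl
      · rw [hC]; exact hcm _
      · rw [hD]; exact hcm _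
  have hpos' : 0 < (v i).count (!c) := hcnt ▸ hpos
  obtain ⟨l1, hl1⟩ : ∃ l1, l = replicate k0 j ++ (i :: l1) := by
    rcases h2 with rfl | ⟨l3, rfl⟩
    · exfalso
      rw [h1, append_nil, count_replicate] at hocc
      simp [Ne.symm hij] at hocc
    · exact ⟨l3, h1⟩
  obtain ⟨l2, hl2⟩ : ∃ l2, l = (l2 ++ [i]) ++ replicate kr j := by
    rcases h4 with rfl | ⟨l3, rfl⟩
    · exfalso
      rw [← count_reverse, h3, append_nil, count_replicate] at hocc
      simp [Ne.symm hij] at hocc
    · refine ⟨l3.reverse, ?_⟩
      have := congrArg reverse h3
      rw [reverse_reverse] at this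
      rw [this]; simp
  have himg1 : ∀ f : Fin 2 → List Bool, img f [i] = f i := by intro f; simp [img]
  -- prefix equation
  have E1 : u i ++ img u l1 = replicate (k0 * (e + 1)) c ++ v i ++ img v l1 := by
    have h5 := hs
    rw [hl1, ← singleton_append, img_append, img_append, img_append, img_append, himg1, himg1,
      img_rep hB, img_rep hD, show k0 * (β + e + 1) = k0 * β + k0 * (e + 1) by ring,
      ← replicate_append_replicate, append_assoc] at h5
    rw [append_cancel_left h5, append_assoc]
  have E2 : img u l2 ++ u i = img v l2 ++ (v i ++ replicate (kr * (e + 1)) c) := by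
    have h5 := hs
    rw [hl2, img_append, img_append, img_append, img_append, himg1, himg1,
      img_rep hB, img_rep hD,
      show kr * (β + e + 1) = kr * (e + 1) + kr * β by ring,
      ← replicate_append_replicate, ← append_assoc (img v l2 ++ v i)] at h5
    rw [append_cancel_right h5, append_assoc]
  have S : suf c (u i) = kr * (e + 1) + suf c (v i) := by
    have h5 := congrArg (suf c) E2
    rw [suf_append _ _ _ hpos, suf_append _ _ _ (by rw [count_append]; omega),
      suf_append_replicate] at h5
    exact h5
  have hcP : (u i).count (!c) = (replicate (k0 * (e + 1)) c ++ v i).count (!c) := by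
    rw [count_append, count_replicate, hcnt]; simp
  obtain ⟨f, hf | hf⟩ := prefix_cmp E1 hcP
  · -- `u i = c^.. v i c^f`
    have h5 := congrArg (suf c) hf
    rw [suf_append_replicate, suf_append _ _ _ hpos'] at h5
    have hfk : f = kr * (e + 1) := by omega
    have hlen := congrArg length hf
    simp only [length_append, length_replicate] at hlen
    have h6 := (hu i).2
    have h7 := length_pos_iff.2 (hv i).1
    have h8 : k0 ≤ k0 * (e + 1) := Nat.le_mul_of_pos_right _ (by omega)
    have h9 : kr ≤ kr * (e + 1) := Nat.le_mul_of_pos_right _ (by omega)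
    refine ⟨replicate k0 j ++ ([i] ++ replicate kr j), by simp, ?_, ?_⟩
    · simp only [length_append, length_replicate, length_singleton]
      omega
    · rw [img_append, img_append, img_append, img_append, himg1, himg1, img_rep hB, img_rep hD,
        img_rep hB, img_rep hD, hf, hfk,
        show k0 * (β + e + 1) = k0 * β + k0 * (e + 1) by ring,
        show kr * (β + e + 1) = kr * (e + 1) + kr * β by ring,
        ← replicate_append_replicate, ← replicate_append_replicate]
      simp only [append_assoc]
  · have h5 := congrArg (suf c) hf
    rw [suf_append_replicate, suf_append _ _ _ hpos'] at h5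
    have hf0 : f = 0 := by omega
    have hk : kr * (e + 1) = 0 := by omega
    have hkr : kr = 0 := by
      rcases Nat.eq_zero_or_pos kr with h0 | h0
      · exact h0
      · have : 0 < kr * (e + 1) := by positivity
        omega
    rw [hf0] at hf
    simp only [replicate_zero, append_nil] at hf
    have hlen := congrArg length hf
    simp only [length_append, length_replicate] at hlen
    have h6 := (hu i).2
    have h7 := length_pos_iff.2 (hv i).1
    have h8 : k0 ≤ k0 * (e + 1) := Nat.le_mul_of_pos_right _ (by omega)
    refine ⟨replicate k0 j ++ [i], by simp, ?_, ?_⟩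
    · simp only [length_append, length_replicate, length_singleton]
      omega
    · rw [img_append, img_append, himg1, himg1, img_rep hB, img_rep hD, ← hf,
        show k0 * (β + e + 1) = k0 * β + k0 * (e + 1) by ring,
        ← replicate_append_replicate]
      simp only [append_assoc]

lemma img_le {u v : Fin 2 → List Bool} (h : ∀ i, (v i).length ≤ (u i).length)
    (l : List (Fin 2)) : (img v l).length ≤ (img u l).length := by
  induction l with
  | nil => simp [img]
  | cons a l ih =>
    simp only [img, map_cons, flatten_cons, length_append] at ih ⊢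
    have := h a
    omega

lemma img_reverse (f : Fin 2 → List Bool) (l : List (Fin 2)) :
    img (fun i => (f i).reverse) l.reverse = (img f l).reverse := by
  induction l with
  | nil => simp [img]
  | cons a l ih =>
    simp only [img, reverse_cons, map_append, map_cons, map_nil, flatten_append, flatten_cons,
      flatten_nil, append_nil, reverse_append] at ih ⊢
    rw [ih]


lemma letterPair {n : ℕ} {u v : Fin 2 → List Bool} (hn : 1 ≤ n)
    (hu : ∀ i, u i ≠ [] ∧ (u i).length ≤ n + 1) (hv : ∀ i, v i ≠ [] ∧ (v i).length ≤ n + 1)
    {j : Fin 2} {c : Bool} (hju : ∀ x ∈ u j, x = c) (hjv : ∀ x ∈ v j, x = c)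
    {l : List (Fin 2)} (hl0 : l ≠ []) (hs : img u l = img v l) :
    ∃ l : List (Fin 2), l ≠ [] ∧ l.length ≤ 2 * n ∧ img u l = img v l := by
  obtain ⟨i, hij⟩ : ∃ i : Fin 2, i ≠ j := ⟨1 - j, by omega⟩
  have hB : u j = replicate (u j).length c := eq_replicate_iff.2 ⟨rfl, hju⟩
  have hD : v j = replicate (v j).length c := eq_replicate_iff.2 ⟨rfl, hjv⟩
  rcases lt_trichotomy (u j).length (v j).length with h | h | h
  · obtain ⟨e, he⟩ := Nat.exists_eq_add_of_lt h
    exact core hij hn hu hv hB (by rw [← he]; exact hD) hl0 hs
  · refine ⟨[j], by simp, by simp; omega, ?_⟩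
    simp only [img, map_cons, map_nil, flatten_cons, flatten_nil, append_nil]
    rw [hB, hD, h]
  · obtain ⟨e, he⟩ := Nat.exists_eq_add_of_lt h
    obtain ⟨l', h1, h2, h3⟩ := core hij hn hv hu hD (by rw [← he]; exact hB) hl0 hs.symm
    exact ⟨l', h1, h2, h3.symm⟩

lemma mem_pw {c x : Bool} {a : ℕ} (h : x ∈ pw [c] a) : x = c := by
  induction a with
  | zero => simp [pw] at h
  | succ a ih =>
    rw [pw, mem_append] at h
    rcases h with h | h
    · simpa using h
    · exact ih h

lemma letters_of_commute {x y : List Bool} (hc : x ++ y = y ++ x)
    (hl : y.length = x.length + 1) : ∃ c : Bool, (∀ z ∈ x, z = c) ∧ (∀ z ∈ y, z = c) := by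
  obtain ⟨t, a, b, ha, hb⟩ := root _ x y rfl hc
  have h1 : b * t.length = a * t.length + 1 := by
    rw [← pw_length, ← pw_length, ← ha, ← hb]; exact hl
  have h2 : t.length ∣ 1 := (Nat.dvd_add_right (Dvd.intro_left a rfl)).1 (Dvd.intro_left b h1)
  have h3 : t.length = 1 := Nat.dvd_one.1 h2
  obtain ⟨c, rfl⟩ := length_eq_one_iff.1 h3
  refine ⟨c, fun z hz => ?_, fun z hz => ?_⟩
  · rw [ha] at hz; exact mem_pw hz
  · rw [hb] at hz; exact mem_pw hz

/-- a long first block of `j` makes the pair `j` commute -/
lemma comm_block {u v : Fin 2 → List Bool} {j : Fin 2} {k : ℕ} {X Y : List Bool}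
    (hu0 : u j ≠ []) (hlen : (v j).length = (u j).length + 1) (hk : 2 ≤ k)
    (h : pw (u j) k ++ X = pw (v j) k ++ Y) : u j ++ v j = v j ++ u j := by
  have hv0 : v j ≠ [] := by
    intro h0
    rw [h0] at hlen
    simp at hlen
  obtain ⟨k', rfl⟩ : ∃ k', k = k' + 1 := ⟨k - 1, by omega⟩
  have h2 : 2 * (u j).length ≤ (k' + 1) * (u j).length := Nat.mul_le_mul_right _ hk
  have h3 : (k' + 1) * (u j).length ≤ (k' + 1) * (v j).length :=
    Nat.mul_le_mul_left _ (by omega)
  refine commute_of_take ((u j).length + (v j).length) (u j) (v j) rfl hu0 hv0 (pw (u j) k')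
    (pw (v j) k') ?_ ?_ ?_ ?_ ?_
  · simpa using M.pwLeft (x := u j) (y := v j) M.nil k'
  · have := M.pwLeft (x := v j) (y := u j) M.nil k'
    simpa using this.symm
  · show _ ≤ (pw (u j) (k' + 1)).length
    rw [pw_length]; omega
  · show _ ≤ (pw (v j) (k' + 1)).length
    rw [pw_length]; omega
  · show (pw (u j) (k' + 1)).take _ = (pw (v j) (k' + 1)).take _
    have h4 := congrArg (take ((u j).length + (v j).length - 1)) h
    rw [take_append_of_le_length (by rw [pw_length]; omega),
      take_append_of_le_length (by rw [pw_length]; omega)] at h4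
    exact h4

lemma img_single (f : Fin 2 → List Bool) (i : Fin 2) : img f [i] = f i := by simp [img]

lemma img_rep_length (f : Fin 2 → List Bool) (j : Fin 2) (k : ℕ) :
    (img f (replicate k j)).length = k * (f j).length := by
  rw [img_replicate, pw_length]

lemma unit {n : ℕ} {u v : Fin 2 → List Bool} {i j : Fin 2} (hij : i ≠ j) (hn : 1 ≤ n)
    (hu : ∀ i, u i ≠ [] ∧ (u i).length ≤ n + 1) (hv : ∀ i, v i ≠ [] ∧ (v i).length ≤ n + 1)
    (hlt : (v i).length < (u i).length) (hlen : (v j).length = (u j).length + 1) :
    ∀ (L : ℕ) (l : List (Fin 2)), l.length = L → l ≠ [] → img u l = img v l →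
    ∃ l : List (Fin 2), l ≠ [] ∧ l.length ≤ 2 * n ∧ img u l = img v l := by
  intro L
  induction L using Nat.strong_induction_on with
  | _ L ih =>
    intro l hL hl0 hs
    by_cases hex : ∃ m, 0 < m ∧ m < L ∧
        (img u (l.take m)).length = (img v (l.take m)).length
    · obtain ⟨m, hm0, hmL, he⟩ := hex
      have h1 := hs
      rw [← take_append_drop m l, img_append, img_append] at h1
      refine ih m hmL (l.take m) (by rw [length_take]; omega) ?_ (append_inj h1 he).1
      intro h0
      have := congrArg length h0
      rw [length_take, length_nil] at this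
      omega
    push Not at hex
    have hA1 := length_pos_iff.2 (hu i).1
    have hC1 := length_pos_iff.2 (hv i).1
    have hB1 := length_pos_iff.2 (hu j).1
    obtain ⟨k0, l', h1, h2⟩ := split_block hij.symm l
    obtain ⟨kr, l'', h3, h4⟩ := split_block hij.symm l.reverse
    have hocc : 0 < l.count i := by
      rcases h2 with rfl | ⟨l3, rfl⟩
      · exfalso
        rw [append_nil] at h1
        rw [h1] at hs
        have h5 := congrArg length hs
        rw [img_rep_length, img_rep_length, hlen] at h5
        have hk : 0 < k0 := by
          rcases Nat.eq_zero_or_pos k0 with h0 | h0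
          · subst h0; exact absurd h1 hl0
          · exact h0
        have h6 : k0 * ((u j).length + 1) = k0 * (u j).length + k0 := by ring
        omega
      · rw [h1, count_append]; simp
    obtain ⟨l1, hl1⟩ : ∃ l1, l = replicate k0 j ++ (i :: l1) := by
      rcases h2 with rfl | ⟨l3, rfl⟩
      · exfalso
        rw [h1, append_nil, count_replicate] at hocc
        simp [Ne.symm hij] at hocc
      · exact ⟨l3, h1⟩
    obtain ⟨l2, hl2⟩ : ∃ l2, l = l2 ++ ([i] ++ replicate kr j) := by
      rcases h4 with rfl | ⟨l3, rfl⟩
      · exfalso
        rw [← count_reverse, h3, append_nil, count_replicate] at hocc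
        simp [Ne.symm hij] at hocc
      · refine ⟨l3.reverse, ?_⟩
        have := congrArg reverse h3
        rw [reverse_reverse] at this
        rw [this]; simp
    obtain ⟨q, hq⟩ := Nat.exists_eq_add_of_lt hlt
    -- `q + 1` is the length difference of the pair `i`
    rcases Nat.lt_or_ge (q + 1) k0 with hk0 | hk0
    · have hc : u j ++ v j = v j ++ u j := by
        refine comm_block (hu j).1 hlen (k := k0) (by omega)
          (X := img u (i :: l1)) (Y := img v (i :: l1)) ?_
        rw [← img_replicate, ← img_replicate, ← img_append, ← img_append, ← hl1]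
        exact hs
      obtain ⟨c, hcu, hcv⟩ := letters_of_commute hc hlen
      exact letterPair hn hu hv hcu hcv hl0 hs
    rcases Nat.lt_or_ge (q + 1) kr with hkr | hkr
    · have hc : (u j).reverse ++ (v j).reverse = (v j).reverse ++ (u j).reverse := by
        refine comm_block (u := fun a => (u a).reverse) (v := fun a => (v a).reverse) (j := j)
          (k := kr) (by simpa using (hu j).1) (by simpa using hlen) (by omega)
          (X := img (fun a => (u a).reverse) l'') (Y := img (fun a => (v a).reverse) l'') ?_
        have h5 : img (fun a => (u a).reverse) l.reverse =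
            img (fun a => (v a).reverse) l.reverse := by
          rw [img_reverse, img_reverse, hs]
        rw [h3, img_append, img_append, img_replicate, img_replicate] at h5
        exact h5
      have hc' : u j ++ v j = v j ++ u j := by
        have := congrArg reverse hc
        simpa using this.symm
      obtain ⟨c, hcu, hcv⟩ := letters_of_commute hc' hlen
      exact letterPair hn hu hv hcu hcv hl0 hs
    -- now both outer blocks are short
    have hmono : ∀ m, k0 + 1 ≤ m → m < L →
        (img v (l.take m)).length < (img u (l.take m)).length := by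
      intro m hm
      induction m, hm using Nat.le_induction with
      | base =>
        intro hmL
        have h5 : l.take (k0 + 1) = replicate k0 j ++ [i] := by
          rw [hl1, ← singleton_append, ← append_assoc]
          rw [take_append_of_le_length (by simp)]
          rw [take_of_length_le (by simp)]
        have h6 := hex (k0 + 1) (by omega) hmL
        rw [h5, img_append, img_append, img_single, img_single, length_append, length_append,
          img_rep_length, img_rep_length, hlen] at h6 ⊢
        have h7 : k0 * ((u j).length + 1) = k0 * (u j).length + k0 := by ring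
        omega
      | succ m hm ihm =>
        intro hmL
        have h5 := ihm (by omega)
        have h6 := hex (m + 1) (by omega) hmL
        have h7 : l.take (m + 1) = l.take m ++ [l[m]'(by omega)] := by
          rw [take_append_getElem]
        rw [h7, img_append, img_append, img_single, img_single, length_append,
          length_append] at h6 ⊢
        have hx : l[m]'(by omega) = i ∨ l[m]'(by omega) = j := by omega
        rcases hx with hx | hx
        · rw [hx] at h6 ⊢
          omega
        · rw [hx, hlen] at h6 ⊢
          omega
    have htot := congrArg length hs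
    rw [hl2, img_append, img_append, img_append, img_append, img_single, img_single,
      length_append, length_append, length_append, length_append, img_rep_length,
      img_rep_length, hlen, hq,
      show kr * ((u j).length + 1) = kr * (u j).length + kr by ring] at htot
    have hl2len : l.length = l2.length + 1 + kr := by
      rw [hl2]; simp only [length_append, length_replicate, length_singleton]; ring
    have htake : l.take l2.length = l2 := by
      rw [hl2, take_left]
    have hm0 : l2.length ≤ k0 := by
      by_contra hcon
      push Not at hcon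
      have h5 := hmono l2.length (by omega) (by omega)
      rw [htake] at h5
      omega
    have hl2r : l2 = replicate l2.length j := by
      have h5 : l.take l2.length = (replicate k0 j).take l2.length := by
        conv_lhs => rw [hl1]
        rw [take_append_of_le_length (by simpa using hm0)]
      rw [htake, take_replicate, min_eq_left hm0] at h5
      exact h5
    have h5 := img_rep_length u j l2.length
    have h6 := img_rep_length v j l2.length
    rw [← hl2r] at h5 h6
    rw [hlen, show l2.length * ((u j).length + 1) = l2.length * (u j).length + l2.length by ring]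
      at h6
    have h7 := (hu i).2
    exact ⟨l, hl0, by omega, hs⟩

lemma unitCase {n : ℕ} {u v : Fin 2 → List Bool} {j : Fin 2} (hn : 1 ≤ n)
    (hu : ∀ i, u i ≠ [] ∧ (u i).length ≤ n + 1) (hv : ∀ i, v i ≠ [] ∧ (v i).length ≤ n + 1)
    (hlen : (v j).length = (u j).length + 1) {l : List (Fin 2)} (hl0 : l ≠ [])
    (hs : img u l = img v l) :
    ∃ l : List (Fin 2), l ≠ [] ∧ l.length ≤ 2 * n ∧ img u l = img v l := by
  obtain ⟨i, hij⟩ : ∃ i : Fin 2, i ≠ j := ⟨1 - j, by omega⟩
  rcases Nat.lt_or_ge (v i).length (u i).length with h | h
  · exact unit hij hn hu hv h hlen _ l rfl hl0 hs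
  · have hle : ∀ a, (u a).length ≤ (v a).length := by
      intro a
      have ha : a = i ∨ a = j := by omega
      rcases ha with rfl | rfl
      · exact h
      · omega
    obtain ⟨a, l', rfl⟩ := exists_cons_of_ne_nil hl0
    have h1 := img_le hle l'
    have h2 := congrArg length hs
    simp only [img, map_cons, flatten_cons, length_append] at h1 h2
    have ha : a = i ∨ a = j := by omega
    have h3 := hle a
    rcases ha with rfl | rfl
    · have h4 : (u a).length = (v a).length := by omega
      refine ⟨[a], by simp, by simp; omega, ?_⟩
      simp only [img, map_cons, flatten_cons] at hs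
      rw [img_single, img_single]
      exact (append_inj hs h4).1
    · omega

/-- Two-pair instances of the Post correspondence problem in which the two words of one pair have
lengths differing by exactly one: a solvable instance with nonempty binary words of length at most
`n + 1` has a solution of length at most `2 n`. -/
theorem result : ∀ (n : ℕ) (u v : Fin 2 → List Bool), 1 ≤ n →
    (∀ i, u i ≠ [] ∧ (u i).length ≤ n + 1) → (∀ i, v i ≠ [] ∧ (v i).length ≤ n + 1) →
    (∃ j : Fin 2, (v j).length = (u j).length + 1 ∨ (u j).length = (v j).length + 1) →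
    (∃ l : List (Fin 2), l ≠ [] ∧ (l.map u).flatten = (l.map v).flatten) →
    ∃ l : List (Fin 2), l ≠ [] ∧ l.length ≤ 2 * n ∧ (l.map u).flatten = (l.map v).flatten := by
  intro n u v hn hu hv ⟨j, hj⟩ ⟨l, hl0, hs⟩
  rcases hj with hj | hj
  · exact unitCase hn hu hv hj hl0 hs
  · obtain ⟨l', h1, h2, h3⟩ := unitCase hn hv hu hj hl0 hs.symm
    exact ⟨l', h1, h2, h3.symm⟩

end Pool.Agent.Results.MP_352312_lc.UnitDiff
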